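import Pool.Agent.MP_42a792_nt.Ring

/-!
# Decomposition formulas for the Cassels height
-/

open Polynomial IntermediateField

namespace Pool.Agent.MP_42a792_nt

noncomputable section

theorem sum_norm_sub_sq (s : Finset ℕ) (c : ℕ → ℂ) :
    ∑ i ∈ s, ∑ j ∈ s, ‖c i - c j‖ ^ 2 =
      2 * (s.card : ℝ) * ∑ i ∈ s, ‖c i‖ ^ 2 - 2 * ‖∑ i ∈ s, c i‖ ^ 2 := by
  have h1 : ‖∑ i ∈ s, c i‖ ^ 2 = ∑ i ∈ s, ∑ j ∈ s, inner ℝ (c i) (c j) := by
    rw [← real_inner_self_eq_norm_sq, sum_inner]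
    exact Finset.sum_congr rfl fun i _ => by rw [inner_sum]
  rw [h1]
  simp_rw [norm_sub_sq_real, Finset.sum_add_distrib, Finset.sum_sub_distrib, Finset.sum_const,
    ← Finset.mul_sum]
  simp only [nsmul_eq_mul]
  rw [← Finset.mul_sum]
  ring

theorem mul_prim {m n : ℕ} {x y : ℂ} (hx : IsPrimitiveRoot x m) (hy : IsPrimitiveRoot y n)
    (h : Nat.Coprime m n) : IsPrimitiveRoot (x * y) (m * n) := by
  rw [hx.eq_orderOf, hy.eq_orderOf] at h ⊢
  rw [← (Commute.all x y).orderOf_mul_eq_mul_orderOf_of_coprime h]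
  exact IsPrimitiveRoot.orderOf _

/-- Parseval for the cyclic group of order `p` -/
theorem parseval {p : ℕ} (hp : 0 < p) {ω : ℂ} (hω : IsPrimitiveRoot ω p) (c : ℕ → ℂ) :
    ∑ k ∈ Finset.range p, ‖∑ i ∈ Finset.range p, ω ^ (k * i) * c i‖ ^ 2 =
      p * ∑ i ∈ Finset.range p, ‖c i‖ ^ 2 := by
  have hω0 : ω ≠ 0 := hω.ne_zero hp.ne'
  have hnorm : ‖ω‖ = 1 := hω.norm'_eq_one hp.ne'
  have hconj : (starRingEnd ℂ) ω = ω⁻¹ := (Complex.inv_eq_conj hnorm).symm
  have key : ((∑ k ∈ Finset.range p, ‖∑ i ∈ Finset.range p, ω ^ (k * i) * c i‖ ^ 2 : ℝ) : ℂ) =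
      ((p * ∑ i ∈ Finset.range p, ‖c i‖ ^ 2 : ℝ) : ℂ) := by
    push_cast
    simp_rw [← Complex.mul_conj', map_sum, map_mul, map_pow, hconj, Finset.sum_mul_sum]
    rw [Finset.sum_comm]
    rw [Finset.mul_sum]
    apply Finset.sum_congr rfl
    intro i hi
    rw [Finset.sum_comm]
    have h1 : ∀ j ∈ Finset.range p, ∑ x ∈ Finset.range p,
        ω ^ (x * i) * c i * (ω⁻¹ ^ (x * j) * (starRingEnd ℂ) (c j)) =
        if i = j then p * (c i * (starRingEnd ℂ) (c i)) else 0 := by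
      intro j hj
      have h2 : ∑ x ∈ Finset.range p,
        ω ^ (x * i) * c i * (ω⁻¹ ^ (x * j) * (starRingEnd ℂ) (c j)) =
        (c i * (starRingEnd ℂ) (c j)) * ∑ x ∈ Finset.range p, (ω ^ i * (ω ^ j)⁻¹) ^ x := by
        rw [Finset.mul_sum]
        apply Finset.sum_congr rfl
        intro x _
        rw [mul_pow, inv_pow, inv_pow, ← pow_mul, ← pow_mul, mul_comm x i, mul_comm x j]
        ring
      rw [h2]
      split_ifs with hij
      · subst hij
        have : ω ^ i * (ω ^ i)⁻¹ = 1 := mul_inv_cancel₀ (pow_ne_zero _ hω0)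
        simp [this]; ring
      · have hne : ω ^ i * (ω ^ j)⁻¹ ≠ 1 := by
          intro h3
          rw [mul_inv_eq_one₀ (pow_ne_zero _ hω0)] at h3
          exact hij (hω.pow_inj (Finset.mem_range.mp hi) (Finset.mem_range.mp hj) h3)
        have h4 : (ω ^ i * (ω ^ j)⁻¹) ^ p = 1 := by
          rw [mul_pow, inv_pow, ← pow_mul, ← pow_mul, mul_comm i, mul_comm j, pow_mul, pow_mul,
            hω.pow_eq_one]
          simp
        have h5 := mul_geom_sum (ω ^ i * (ω ^ j)⁻¹) p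
        rw [h4, sub_self] at h5
        rcases mul_eq_zero.mp h5 with h6 | h6
        · exact absurd (sub_eq_zero.mp h6) hne
        · rw [h6, mul_zero]
    rw [Finset.sum_congr rfl h1]
    simp [hi]
  exact_mod_cast key

/-- raising to a power prime to `N` permutes the primitive `N`-th roots of unity -/
theorem sum_pow_perm {N e : ℕ} (he : Nat.Coprime e N) (hN : 0 < N) (g : ℂ → ℝ) :
    ∑ ξ ∈ primitiveRoots N ℂ, g (ξ ^ e) = ∑ ξ ∈ primitiveRoots N ℂ, g ξ := by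
  have : NeZero N := ⟨hN.ne'⟩
  have hmaps : ∀ ξ ∈ primitiveRoots N ℂ, ξ ^ e ∈ primitiveRoots N ℂ := by
    intro ξ hξ
    rw [mem_primitiveRoots hN] at hξ ⊢
    exact hξ.pow_of_coprime e he
  have hinj : Set.InjOn (fun ξ : ℂ => ξ ^ e) (primitiveRoots N ℂ : Set ℂ) := by
    intro a ha b hb hab
    simp only at hab
    have ha' : a ^ N = 1 := (isPrimitiveRoot_of_mem_primitiveRoots ha).pow_eq_one
    have hb' : b ^ N = 1 := (isPrimitiveRoot_of_mem_primitiveRoots hb).pow_eq_one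
    have hb0 : b ≠ 0 := (isPrimitiveRoot_of_mem_primitiveRoots hb).ne_zero hN.ne'
    have h1 : (a * b⁻¹) ^ e = 1 := by
      rw [mul_pow, hab, inv_pow, mul_inv_cancel₀ (pow_ne_zero _ hb0)]
    have h2 : (a * b⁻¹) ^ N = 1 := by
      rw [mul_pow, ha', inv_pow, hb']; simp
    have h3 : (a * b⁻¹) ^ 1 = 1 := by
      rw [← he]
      exact pow_gcd_eq_one.mpr ⟨h1, h2⟩
    rw [pow_one, mul_inv_eq_one₀ hb0] at h3
    exact h3
  have himg : (primitiveRoots N ℂ).image (fun ξ => ξ ^ e) = primitiveRoots N ℂ := by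
    apply Finset.eq_of_subset_of_card_le
    · intro x hx
      obtain ⟨ξ, hξ, rfl⟩ := Finset.mem_image.mp hx
      exact hmaps ξ hξ
    · rw [Finset.card_image_of_injOn hinj]
  conv_rhs => rw [← himg]
  rw [Finset.sum_image hinj]

/-- general decomposition along a subring -/
theorem exists_decomp {p : ℕ} {x ξ : ℂ} (A : Subalgebra ℤ ℂ)
    (h : ∀ k : ℕ, ∃ i < p, ∃ a ∈ A, ξ ^ k = x ^ i * a) (f : ℤ[X]) :
    ∃ α : ℕ → ℂ, (∀ i, α i ∈ A) ∧ aeval ξ f = ∑ i ∈ Finset.range p, x ^ i * α i := by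
  induction f using Polynomial.induction_on' with
  | add f g hf hg =>
    obtain ⟨α, hα, h1⟩ := hf
    obtain ⟨β, hβ, h2⟩ := hg
    refine ⟨fun i => α i + β i, fun i => add_mem (hα i) (hβ i), ?_⟩
    rw [map_add, h1, h2, ← Finset.sum_add_distrib]
    exact Finset.sum_congr rfl fun i _ => by ring
  | monomial n c =>
    obtain ⟨i, hi, a, ha, hia⟩ := h n
    refine ⟨fun j => if j = i then (c : ℂ) * a else 0, fun j => ?_, ?_⟩
    · dsimp only
      split_ifs
      · exact mul_mem (intCast_mem _ c) ha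
      · exact zero_mem _
    · rw [aeval_monomial]
      have : ∀ j ∈ Finset.range p, x ^ j * (if j = i then (c : ℂ) * a else 0) =
          if j = i then x ^ i * ((c : ℂ) * a) else 0 := by
        intro j _
        split_ifs with h'
        · rw [h']
        · simp
      rw [Finset.sum_congr rfl this, Finset.sum_ite_eq' (Finset.range p) i, hia]
      simp [hi]
      ring

/-- Decomposition formula, ramified case: `N = p M` with `p ∣ M`. -/
theorem height_ramified {p M : ℕ} (hp : p.Prime) (hM : 0 < M) (hpM : p ∣ M) {ξ₀ : ℂ}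
    (hξ₀ : IsPrimitiveRoot ξ₀ (p * M)) {α : ℕ → ℂ} (hα : ∀ i, α i ∈ cycRing M) :
    casselsHeight (∑ i ∈ Finset.range p, ξ₀ ^ i * α i) =
      ∑ i ∈ Finset.range p, casselsHeight (α i) := by
  have hN : 0 < p * M := Nat.mul_pos hp.pos hM
  have hη : IsPrimitiveRoot (ξ₀ ^ p) M := hξ₀.pow hN rfl
  choose f hf using fun i => exists_poly hM hη (hα i)
  have hφ : (0 : ℝ) < Nat.totient (p * M) := by exact_mod_cast Nat.totient_pos.mpr hN
  have hβ : ∑ i ∈ Finset.range p, ξ₀ ^ i * α i =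
      aeval ξ₀ (∑ i ∈ Finset.range p, X ^ i * (expand ℤ p (f i))) := by
    rw [map_sum]
    apply Finset.sum_congr rfl
    intro i _
    rw [map_mul, expand_aeval, hf]; simp
  have hα' : ∀ i, casselsHeight (α i) =
      (∑ ξ ∈ primitiveRoots (p * M) ℂ, ‖aeval (ξ ^ p) (f i)‖ ^ 2) / (Nat.totient (p * M) : ℝ) := by
    intro i
    rw [← hf i, ← expand_aeval, height_aeval hN hξ₀]
    simp_rw [expand_aeval]
  rw [hβ, height_aeval hN hξ₀]
  simp_rw [hα']
  rw [← Finset.sum_div]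
  congr 1
  rw [Finset.sum_comm]
  have hp0 : (p : ℝ) ≠ 0 := by exact_mod_cast hp.ne_zero
  apply mul_left_cancel₀ hp0
  set F : ℤ[X] := ∑ i ∈ Finset.range p, X ^ i * (expand ℤ p (f i)) with hF
  have h1 : (p : ℝ) * ∑ ξ ∈ primitiveRoots (p * M) ℂ, ‖aeval ξ F‖ ^ 2 =
      ∑ k ∈ Finset.range p, ∑ ξ ∈ primitiveRoots (p * M) ℂ, ‖aeval (ξ ^ (1 + k * M)) F‖ ^ 2 := by
    have : ∀ k ∈ Finset.range p, ∑ ξ ∈ primitiveRoots (p * M) ℂ,
        ‖aeval (ξ ^ (1 + k * M)) F‖ ^ 2 = ∑ ξ ∈ primitiveRoots (p * M) ℂ, ‖aeval ξ F‖ ^ 2 := by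
      intro k _
      apply sum_pow_perm _ hN (fun ξ => ‖aeval ξ F‖ ^ 2)
      apply Nat.Coprime.mul_right
      · obtain ⟨q, rfl⟩ := hpM
        rw [show 1 + k * (p * q) = 1 + p * (k * q) by ring]
        exact (Nat.coprime_add_mul_left_left 1 p (k * q)).mpr (Nat.coprime_one_left _)
      · exact (Nat.coprime_add_mul_right_left 1 M k).mpr (Nat.coprime_one_left _)
    rw [Finset.sum_congr rfl this]
    simp
  rw [h1, Finset.sum_comm, Finset.mul_sum]
  apply Finset.sum_congr rfl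
  intro ξ hξ
  have hξ' := isPrimitiveRoot_of_mem_primitiveRoots hξ
  have hω : IsPrimitiveRoot (ξ ^ M) p := hξ'.pow hN (mul_comm _ _)
  have h2 := parseval hp.pos hω (fun i => ξ ^ i * aeval (ξ ^ p) (f i))
  have h3 : ‖ξ‖ = 1 := hξ'.norm'_eq_one hN.ne'
  have h4 : ∑ i ∈ Finset.range p, ‖ξ ^ i * aeval (ξ ^ p) (f i)‖ ^ 2 =
      ∑ i ∈ Finset.range p, ‖aeval (ξ ^ p) (f i)‖ ^ 2 := by
    apply Finset.sum_congr rfl
    intro i _
    rw [norm_mul, norm_pow, h3, one_pow, one_mul]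
  rw [h4] at h2
  rw [← h2]
  apply Finset.sum_congr rfl
  intro k _
  congr 2
  rw [hF, map_sum]
  apply Finset.sum_congr rfl
  intro i _
  rw [map_mul, expand_aeval, map_pow, aeval_X]
  have h5 : (ξ ^ (1 + k * M)) ^ p = ξ ^ p := by
    rw [← pow_mul, add_mul, pow_add, one_mul, show k * M * p = (p * M) * k by ring, pow_mul,
      hξ'.pow_eq_one, one_pow, mul_one]
  rw [h5, ← pow_mul, ← pow_mul, ← mul_assoc, ← pow_add]
  congr 2
  ring

/-- Decomposition formula, unramified case: `N = p M` with `p ∤ M`. -/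
theorem height_unramified {p M : ℕ} (hp : p.Prime) (hM : 0 < M) (hpM : Nat.Coprime p M) {ω : ℂ}
    (hω : IsPrimitiveRoot ω p) {α : ℕ → ℂ} (hα : ∀ i, α i ∈ cycRing M) :
    2 * ((p : ℝ) - 1) * casselsHeight (∑ i ∈ Finset.range p, ω ^ i * α i) =
      ∑ i ∈ Finset.range p, ∑ j ∈ Finset.range p, casselsHeight (α i - α j) := by
  have hN : 0 < p * M := Nat.mul_pos hp.pos hM
  obtain ⟨η, hη⟩ := exists_prim hM
  obtain ⟨a, ha1, ha2⟩ := Nat.chineseRemainder hpM 1 0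
  obtain ⟨b, hb1, hb2⟩ := Nat.chineseRemainder hpM 0 1
  have hpow : ∀ {z : ℂ} {n s t : ℕ}, z ^ n = 1 → s ≡ t [MOD n] → z ^ s = z ^ t := by
    intro z n s t hz hst
    rw [← Nat.mod_add_div s n, ← Nat.mod_add_div t n, pow_add, pow_add, pow_mul, pow_mul, hz,
      one_pow, one_pow, hst]
  set ξ₀ := ω * η with hξ₀def
  have hξ₀ : IsPrimitiveRoot ξ₀ (p * M) := mul_prim hω hη hpM
  have hωa : ξ₀ ^ a = ω := by
    rw [hξ₀def, mul_pow, hpow hω.pow_eq_one ha1, hpow hη.pow_eq_one ha2]; simp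
  have hηb : ξ₀ ^ b = η := by
    rw [hξ₀def, mul_pow, hpow hω.pow_eq_one hb1, hpow hη.pow_eq_one hb2]; simp
  choose f hf using fun i => exists_poly hM hη (hα i)
  have hφ : (0 : ℝ) < Nat.totient (p * M) := by exact_mod_cast Nat.totient_pos.mpr hN
  set F : ℤ[X] := ∑ i ∈ Finset.range p, X ^ (a * i) * ((f i).comp (X ^ b)) with hF
  have haF : ∀ z : ℂ, aeval z F = ∑ i ∈ Finset.range p, (z ^ a) ^ i * aeval (z ^ b) (f i) := by
    intro z
    rw [hF, map_sum]
    apply Finset.sum_congr rfl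
    intro i _
    rw [map_mul, aeval_comp, map_pow, map_pow, aeval_X, pow_mul]
  have hβ : ∑ i ∈ Finset.range p, ω ^ i * α i = aeval ξ₀ F := by
    rw [haF, hωa, hηb]
    exact Finset.sum_congr rfl fun i _ => by rw [hf]
  have hα' : ∀ i j, casselsHeight (α i - α j) =
      (∑ ξ ∈ primitiveRoots (p * M) ℂ, ‖aeval (ξ ^ b) (f i) - aeval (ξ ^ b) (f j)‖ ^ 2) /
        (Nat.totient (p * M) : ℝ) := by
    intro i j
    have h1 : α i - α j = aeval ξ₀ (((f i) - (f j)).comp (X ^ b)) := by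
      rw [aeval_comp, map_pow, aeval_X, hηb, map_sub, hf, hf]
    rw [h1, height_aeval hN hξ₀]
    congr 1
    apply Finset.sum_congr rfl
    intro ξ _
    rw [aeval_comp, map_pow, aeval_X, map_sub]
  rw [hβ, height_aeval hN hξ₀]
  simp_rw [hα']
  simp_rw [← Finset.sum_div]
  rw [mul_div_assoc']
  congr 1
  have h1 : ((p : ℝ) - 1) * ∑ ξ ∈ primitiveRoots (p * M) ℂ, ‖aeval ξ F‖ ^ 2 =
      ∑ t ∈ (Finset.range p).erase 0, ∑ ξ ∈ primitiveRoots (p * M) ℂ,
        ‖aeval (ξ ^ (a * t + b)) F‖ ^ 2 := by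
    have : ∀ t ∈ (Finset.range p).erase 0, ∑ ξ ∈ primitiveRoots (p * M) ℂ,
        ‖aeval (ξ ^ (a * t + b)) F‖ ^ 2 = ∑ ξ ∈ primitiveRoots (p * M) ℂ, ‖aeval ξ F‖ ^ 2 := by
      intro t ht
      rw [Finset.mem_erase, Finset.mem_range] at ht
      apply sum_pow_perm _ hN (fun ξ => ‖aeval ξ F‖ ^ 2)
      apply Nat.Coprime.mul_right
      · have hmod : a * t + b ≡ t [MOD p] := by
          simpa using (ha1.mul_right t).add hb1
        rw [Nat.Coprime, hmod.gcd_eq]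
        exact (Nat.coprime_of_lt_prime ht.1 ht.2 hp).symm
      · have hmod : a * t + b ≡ 1 [MOD M] := by
          simpa using (ha2.mul_right t).add hb2
        rw [Nat.Coprime, hmod.gcd_eq]
        exact Nat.coprime_one_left _
    rw [Finset.sum_congr rfl this, Finset.sum_const, Finset.card_erase_of_mem
      (Finset.mem_range.mpr hp.pos), Finset.card_range, nsmul_eq_mul, Nat.cast_sub hp.one_le]
    simp
  rw [mul_assoc, h1]
  have hcomm : ∑ i ∈ Finset.range p, ∑ j ∈ Finset.range p, ∑ ξ ∈ primitiveRoots (p * M) ℂ,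
      ‖aeval (ξ ^ b) (f i) - aeval (ξ ^ b) (f j)‖ ^ 2 =
      ∑ ξ ∈ primitiveRoots (p * M) ℂ, ∑ i ∈ Finset.range p, ∑ j ∈ Finset.range p,
      ‖aeval (ξ ^ b) (f i) - aeval (ξ ^ b) (f j)‖ ^ 2 := by
    rw [Finset.sum_comm]
    conv_rhs => rw [Finset.sum_comm]
    rw [Finset.sum_comm]
    exact Finset.sum_congr rfl fun i _ => Finset.sum_comm
  rw [hcomm, Finset.sum_comm, Finset.mul_sum]
  apply Finset.sum_congr rfl
  intro ξ hξ
  have hξ' := isPrimitiveRoot_of_mem_primitiveRoots hξ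
  have hω' : IsPrimitiveRoot (ξ ^ a) p := by
    have h2 : IsPrimitiveRoot (ξ ^ M) p := hξ'.pow hN (mul_comm _ _)
    obtain ⟨q, hq⟩ := (Nat.modEq_zero_iff_dvd.mp ha2)
    rw [hq, pow_mul]
    apply h2.pow_of_coprime
    have h3 : Nat.Coprime a p := by rw [Nat.Coprime, ha1.gcd_eq]; exact Nat.coprime_one_left _
    rw [hq] at h3
    exact Nat.Coprime.coprime_mul_left h3
  have hη' : (ξ ^ b) ^ M = 1 := by
    obtain ⟨q, hq⟩ := (Nat.modEq_zero_iff_dvd.mp hb1)
    rw [hq, ← pow_mul, show p * q * M = (p * M) * q by ring, pow_mul, hξ'.pow_eq_one, one_pow]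
  set c : ℕ → ℂ := fun i => aeval (ξ ^ b) (f i) with hc
  have h2 := parseval hp.pos hω' c
  have h3 : ∀ t, aeval (ξ ^ (a * t + b)) F = ∑ i ∈ Finset.range p, (ξ ^ a) ^ (t * i) * c i := by
    intro t
    rw [haF]
    apply Finset.sum_congr rfl
    intro i _
    have e1 : (ξ ^ (a * t + b)) ^ a = (ξ ^ a) ^ t := by
      rw [← pow_mul, mul_comm (a * t + b), pow_mul]
      apply hpow hω'.pow_eq_one
      simpa using (ha1.mul_right t).add hb1
    have e2 : (ξ ^ (a * t + b)) ^ b = ξ ^ b := by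
      rw [← pow_mul, mul_comm (a * t + b), pow_mul]
      conv_rhs => rw [← pow_one (ξ ^ b)]
      apply hpow hη'
      simpa using (ha2.mul_right t).add hb2
    rw [e1, e2, ← pow_mul]
  simp_rw [h3]
  change 2 * ∑ t ∈ (Finset.range p).erase 0,
    ‖∑ i ∈ Finset.range p, (ξ ^ a) ^ (t * i) * c i‖ ^ 2 =
    ∑ i ∈ Finset.range p, ∑ j ∈ Finset.range p, ‖c i - c j‖ ^ 2
  rw [← Finset.add_sum_erase _ _ (Finset.mem_range.mpr hp.pos)] at h2
  simp only [zero_mul, pow_zero, one_mul] at h2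
  rw [sum_norm_sub_sq, Finset.card_range]
  linarith

end

end Pool.Agent.MP_42a792_nt
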