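import Mathlib

/-!
# Cyclotomic integers, conjugates, Cassels height and equivalence
-/

open IntermediateField

namespace Pool.Agent.MP_42a792_nt

/-- The primitive `n`-th root of unity `ω_n = exp(2πi/n)`. -/
noncomputable def omega (n : ℕ) : ℂ := Complex.exp (2 * Real.pi * Complex.I / n)

/-- A cyclotomic integer is an algebraic integer lying in some cyclotomic field `ℚ(ω_n)`. -/
def IsCyclotomicInteger (β : ℂ) : Prop :=
  IsIntegral ℤ β ∧ ∃ n : ℕ, 0 < n ∧ β ∈ ℚ⟮omega n⟯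

/-- `γ'` is a conjugate of `γ`: it is the image of `γ` under a field embedding `ℚ(γ) → ℂ`. -/
def IsConjugate (γ γ' : ℂ) : Prop :=
  ∃ σ : ℚ⟮γ⟯ →+* ℂ, σ (AdjoinSimple.gen ℚ γ) = γ'

/-- The Cassels height of an algebraic number `β`: the average of `|σ(β)|²` over all field
embeddings `σ : ℚ(β) → ℂ`. -/
noncomputable def casselsHeight (β : ℂ) : ℝ :=
  (∑ᶠ σ : ℚ⟮β⟯ →+* ℂ, ‖σ (AdjoinSimple.gen ℚ β)‖ ^ 2) / (Module.finrank ℚ ℚ⟮β⟯ : ℝ)

/-- Nonzero `β`, `γ` are equivalent if `β / γ'` is a root of unity for some conjugate `γ'`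
of `γ`. -/
def Equivalent (β γ : ℂ) : Prop :=
  β ≠ 0 ∧ γ ≠ 0 ∧ ∃ γ' : ℂ, IsConjugate γ γ' ∧ ∃ m : ℕ, 0 < m ∧ (β / γ') ^ m = 1

end Pool.Agent.MP_42a792_nt
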