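import Pool.Agent.MP_42a792_nt.Induct

/-!
# Equivalence classes
-/

open Polynomial IntermediateField

namespace Pool.Agent.MP_42a792_nt

noncomputable section

theorem omega_prim {n : ℕ} (hn : 0 < n) : IsPrimitiveRoot (omega n) n :=
  Complex.isPrimitiveRoot_exp n hn.ne'

theorem isCyclotomicExtension_adjoin {N : ℕ} (hN : 0 < N) [NeZero N] {ξ₀ : ℂ}
    (h : IsPrimitiveRoot ξ₀ N) : IsCyclotomicExtension {N} ℚ ℚ⟮ξ₀⟯ := by
  change IsCyclotomicExtension {N} ℚ (IntermediateField.adjoin ℚ {ξ₀}).toSubalgebra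
  rw [IntermediateField.adjoin_simple_toSubalgebra_of_isAlgebraic
    ((h.isIntegral hN).tower_top (A := ℚ)).isAlgebraic]
  exact h.adjoin_isCyclotomicExtension ℚ

theorem gen_prim {N : ℕ} {ξ₀ : ℂ} (h : IsPrimitiveRoot ξ₀ N) :
    IsPrimitiveRoot (AdjoinSimple.gen ℚ ξ₀) N := by
  rw [← IsPrimitiveRoot.coe_submonoidClass_iff]
  simpa using h

/-- integers of `ℚ(ζ_N)` lie in `ℤ[ζ_N]` -/
theorem mem_cycRing {N : ℕ} (hN : 0 < N) {ξ₀ β : ℂ} (h : IsPrimitiveRoot ξ₀ N)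
    (hint : IsIntegral ℤ β) (hβ : β ∈ ℚ⟮ξ₀⟯) : β ∈ cycRing N := by
  have : NeZero N := ⟨hN.ne'⟩
  have hcyc : IsCyclotomicExtension {N} ℚ ℚ⟮ξ₀⟯ := isCyclotomicExtension_adjoin hN h
  have hfd : FiniteDimensional ℚ ℚ⟮ξ₀⟯ := IsCyclotomicExtension.finiteDimensional {N} ℚ _
  have hnf : NumberField ℚ⟮ξ₀⟯ := ⟨⟩
  have hic := IsCyclotomicExtension.Rat.isIntegralClosure_adjoin_singleton (gen_prim h)
  have hint' : IsIntegral ℤ (⟨β, hβ⟩ : ℚ⟮ξ₀⟯) := by
    have hinj : Function.Injective (algebraMap ℚ⟮ξ₀⟯ ℂ) := (algebraMap ℚ⟮ξ₀⟯ ℂ).injective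
    exact (isIntegral_algebraMap_iff hinj).mp hint
  obtain ⟨y, hy⟩ := hic.isIntegral_iff.mp hint'
  have hy2 : (⟨β, hβ⟩ : ℚ⟮ξ₀⟯) ∈ Algebra.adjoin ℤ {AdjoinSimple.gen ℚ ξ₀} := by
    rw [← hy]; exact y.2
  rw [Algebra.adjoin_singleton_eq_range_aeval] at hy2
  obtain ⟨f, hf⟩ := hy2
  have hf' : aeval (AdjoinSimple.gen ℚ ξ₀) f = (⟨β, hβ⟩ : ℚ⟮ξ₀⟯) := hf
  have h2 : aeval ξ₀ f = β := by
    have h3 := Polynomial.aeval_algebraMap_apply ℂ (AdjoinSimple.gen ℚ ξ₀) f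
    rw [AdjoinSimple.algebraMap_gen, hf'] at h3
    exact h3
  rw [← h2]
  exact aeval_mem h.pow_eq_one f

theorem cyclotomicInteger_mem {β : ℂ} (h : IsCyclotomicInteger β) :
    ∃ N, 0 < N ∧ β ∈ cycRing N := by
  obtain ⟨hint, n, hn, hβ⟩ := h
  exact ⟨n, hn, mem_cycRing hn (omega_prim hn) hint hβ⟩

theorem aeval_mem_field {ξ₀ : ℂ} (f : ℤ[X]) : aeval ξ₀ f ∈ ℚ⟮ξ₀⟯ := by
  have h1 : (aeval ξ₀ (f.map (algebraMap ℤ ℚ)) : ℂ) = aeval ξ₀ f := by
    rw [aeval_map_algebraMap]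
  rw [← h1]
  have h2 := Polynomial.aeval_mem_adjoin_singleton ℚ (p := f.map (algebraMap ℤ ℚ)) ξ₀
  exact IntermediateField.algebra_adjoin_le_adjoin ℚ _ h2

theorem isCyclotomicInteger_of_mem {N : ℕ} (hN : 0 < N) {β : ℂ} (h : β ∈ cycRing N) :
    IsCyclotomicInteger β := by
  obtain ⟨f, rfl⟩ := exists_poly hN (omega_prim hN) h
  refine ⟨?_, N, hN, aeval_mem_field f⟩
  have h3 : cycRing N ≤ integralClosure ℤ ℂ := by
    apply Algebra.adjoin_le
    intro z hz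
    exact IsIntegral.of_pow hN (by
      have : z ^ N = 1 := hz
      rw [this]; exact isIntegral_one)
  exact h3 h

/-- conjugates of `f(ξ₀)` are exactly the `f(ξ)` -/
theorem isConjugate_aeval {N : ℕ} (hN : 0 < N) {ξ₀ ξ : ℂ} (h : IsPrimitiveRoot ξ₀ N)
    (h' : IsPrimitiveRoot ξ N) (f : ℤ[X]) : IsConjugate (aeval ξ₀ f) (aeval ξ f) := by
  have : NeZero N := ⟨hN.ne'⟩
  have hcyc : IsCyclotomicExtension {N} ℚ ℚ⟮ξ₀⟯ := isCyclotomicExtension_adjoin hN h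
  have hirr : Irreducible (cyclotomic N ℚ) := cyclotomic.irreducible_rat hN
  have hle : ℚ⟮aeval ξ₀ f⟯ ≤ ℚ⟮ξ₀⟯ := by
    rw [adjoin_simple_le_iff]; exact aeval_mem_field f
  set σ : ℚ⟮ξ₀⟯ →ₐ[ℚ] ℂ := ((gen_prim h).embeddingsEquivPrimitiveRoots ℂ hirr).symm
    ⟨ξ, (mem_primitiveRoots hN).mpr h'⟩ with hσ
  have hσξ : σ (AdjoinSimple.gen ℚ ξ₀) = ξ := by
    have := IsPrimitiveRoot.embeddingsEquivPrimitiveRoots_apply_coe (gen_prim h) ℂ hirr σ
    rw [← this, hσ, Equiv.apply_symm_apply]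
  refine ⟨(σ.comp (IntermediateField.inclusion hle)).toRingHom, ?_⟩
  have h1 : IntermediateField.inclusion hle (AdjoinSimple.gen ℚ (aeval ξ₀ f)) =
      aeval (AdjoinSimple.gen ℚ ξ₀) f := by
    apply Subtype.ext
    have h2 := Polynomial.aeval_algebraMap_apply ℂ (AdjoinSimple.gen ℚ ξ₀) f
    rw [AdjoinSimple.algebraMap_gen] at h2
    exact h2
  change σ (IntermediateField.inclusion hle (AdjoinSimple.gen ℚ (aeval ξ₀ f))) = _
  rw [h1, ← hσξ]
  rw [← AlgHom.restrictScalars_apply ℤ σ, ← Polynomial.aeval_algHom_apply]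
  rfl

theorem exists_of_isConjugate {N : ℕ} (hN : 0 < N) {ξ₀ γ' : ℂ} (h : IsPrimitiveRoot ξ₀ N)
    {f : ℤ[X]} (hc : IsConjugate (aeval ξ₀ f) γ') :
    ∃ ξ, IsPrimitiveRoot ξ N ∧ γ' = aeval ξ f := by
  have : NeZero N := ⟨hN.ne'⟩
  have hcyc : IsCyclotomicExtension {N} ℚ ℚ⟮ξ₀⟯ := isCyclotomicExtension_adjoin hN h
  have hfd : FiniteDimensional ℚ ℚ⟮ξ₀⟯ := IsCyclotomicExtension.finiteDimensional {N} ℚ _
  have hle : ℚ⟮aeval ξ₀ f⟯ ≤ ℚ⟮ξ₀⟯ := by
    rw [adjoin_simple_le_iff]; exact aeval_mem_field f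
  let alg : Algebra ℚ⟮aeval ξ₀ f⟯ ℚ⟮ξ₀⟯ := (IntermediateField.inclusion hle).toAlgebra
  have hst : IsScalarTower ℚ ℚ⟮aeval ξ₀ f⟯ ℚ⟮ξ₀⟯ := IsScalarTower.of_algebraMap_eq fun x => rfl
  have hfd2 : FiniteDimensional ℚ⟮aeval ξ₀ f⟯ ℚ⟮ξ₀⟯ := FiniteDimensional.right ℚ _ _
  obtain ⟨σ, hσ⟩ := hc
  obtain ⟨τ, hτ⟩ := IsAlgClosed.surjective_domRestrict_of_isAlgebraic (K := ℚ)
    (L := ℚ⟮aeval ξ₀ f⟯) (M := ℂ) (E := ℚ⟮ξ₀⟯) (RingHom.equivRatAlgHom _ _ σ)
  refine ⟨τ (AdjoinSimple.gen ℚ ξ₀), (gen_prim h).map_of_injective τ.injective, ?_⟩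
  have h1 : IntermediateField.inclusion hle (AdjoinSimple.gen ℚ (aeval ξ₀ f)) =
      aeval (AdjoinSimple.gen ℚ ξ₀) f := by
    apply Subtype.ext
    have h2 := Polynomial.aeval_algebraMap_apply ℂ (AdjoinSimple.gen ℚ ξ₀) f
    rw [AdjoinSimple.algebraMap_gen] at h2
    exact h2
  have h2 := congrArg (fun φ : ℚ⟮aeval ξ₀ f⟯ →ₐ[ℚ] ℂ => φ (AdjoinSimple.gen ℚ (aeval ξ₀ f))) hτ
  have h3 : τ (IntermediateField.inclusion hle (AdjoinSimple.gen ℚ (aeval ξ₀ f))) = γ' := by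
    rw [← hσ]
    exact h2
  rw [← h3, h1]
  rw [← AlgHom.restrictScalars_apply ℤ τ, ← Polynomial.aeval_algHom_apply]
  rfl

/-- the polynomial `1 + X + X^15`, which takes the value `1 + ω₇ + ω₇ω₅` at `ω₇ω₅` -/
def poly35 : ℤ[X] := 1 + X + X ^ 15

theorem aeval_poly35 {ω θ : ℂ} (hω : IsPrimitiveRoot ω 7) (hθ : IsPrimitiveRoot θ 5) :
    aeval (ω * θ) poly35 = 1 + ω + ω * θ := by
  have h1 : ω ^ 7 = 1 := hω.pow_eq_one
  have h2 : θ ^ 5 = 1 := hθ.pow_eq_one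
  have h3 : (ω * θ) ^ 15 = ω := by
    calc (ω * θ) ^ 15 = (ω ^ 7) ^ 2 * ω * (θ ^ 5) ^ 3 := by ring
      _ = ω := by rw [h1, h2]; ring
  simp [poly35, h3]
  ring

theorem split35 {ξ : ℂ} (hξ : IsPrimitiveRoot ξ 35) :
    ∃ ω θ, IsPrimitiveRoot ω 7 ∧ IsPrimitiveRoot θ 5 ∧ ξ = ω * θ := by
  refine ⟨ξ ^ 15, ξ ^ 21, ?_, ?_, ?_⟩
  · have h1 : IsPrimitiveRoot (ξ ^ 5) 7 := hξ.pow (by norm_num) (by norm_num)
    have := h1.pow_of_coprime 3 (by norm_num)
    rwa [← pow_mul] at this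
  · have h1 : IsPrimitiveRoot (ξ ^ 7) 5 := hξ.pow (by norm_num) (by norm_num)
    have := h1.pow_of_coprime 3 (by norm_num)
    rwa [← pow_mul] at this
  · rw [← pow_add, show 15 + 21 = 35 + 1 by norm_num, pow_add, hξ.pow_eq_one]; ring

theorem height_fifteen {θ : ℂ} (hθ : IsPrimitiveRoot θ 15) : casselsHeight (1 + θ) = 9 / 4 := by
  rw [height_one_add (by norm_num) hθ]
  have h1 : Nat.totient 15 = 8 := by decide
  have h2 : ArithmeticFunction.moebius 15 = 1 := by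
    have := ArithmeticFunction.isMultiplicative_moebius.map_mul_of_coprime
      (m := 3) (n := 5) (by norm_num)
    rw [show (15 : ℕ) = 3 * 5 by norm_num, this,
      ArithmeticFunction.moebius_apply_prime Nat.prime_three,
      ArithmeticFunction.moebius_apply_prime Nat.prime_five]
    norm_num
  rw [h1, h2]; norm_num

theorem height_thirtyfive {ω θ : ℂ} (hω : IsPrimitiveRoot ω 7) (hθ : IsPrimitiveRoot θ 5) :
    casselsHeight (1 + ω + ω * θ) = 9 / 4 := by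
  set α : ℕ → ℂ := fun i => if i = 0 then 1 else if i = 1 then 1 + θ else 0 with hα
  have hθm : θ ∈ cycRing 5 := root_mem hθ.pow_eq_one
  have hαm : ∀ i, α i ∈ cycRing 5 := by
    intro i
    rw [hα]
    dsimp only
    split_ifs
    · exact one_mem _
    · exact add_mem (one_mem _) hθm
    · exact zero_mem _
  have h := height_unramified (p := 7) (M := 5) (by norm_num) (by norm_num) (by norm_num) hω hαm
  have h1 : ∑ i ∈ Finset.range 7, ω ^ i * α i = 1 + ω + ω * θ := by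
    simp [Finset.sum_range_succ, hα]
    ring
  have h2 : casselsHeight (1 + θ) = 3 / 2 := by
    rw [height_one_add (by norm_num) hθ, ArithmeticFunction.moebius_apply_prime Nat.prime_five]
    have : Nat.totient 5 = 4 := by decide
    rw [this]; norm_num
  have h3 : casselsHeight θ = 1 := height_root (by norm_num) hθ.pow_eq_one
  have h4 : casselsHeight (-θ) = 1 := by rw [height_neg (by norm_num) hθm, h3]
  have h5 : casselsHeight (-1) = 1 := height_root two_pos (by norm_num)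
  have h7 : casselsHeight (-θ + -1) = 3 / 2 := by
    rw [show (-θ + -1) = -(1 + θ) by ring, height_neg (by norm_num)
      (add_mem (one_mem _) hθm), h2]
  rw [h1] at h
  simp [Finset.sum_range_succ, hα, height_zero, height_one, h2, h3, h4, h5, h7] at h
  linarith

theorem equivalent_of_good {z : ℂ} (h : Good z) :
    Equivalent z (1 + omega 15) ∨ Equivalent z (1 + omega 7 + omega 7 * omega 5) := by
  have aux : ∀ {N : ℕ} (hN : 0 < N) {ξ₀ ξ ε : ℂ} (h : IsPrimitiveRoot ξ₀ N)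
      (h' : IsPrimitiveRoot ξ N) (f : ℤ[X]) (hε : IsRoot1 ε) (h9 : casselsHeight (aeval ξ f) = 9 / 4),
      Equivalent (ε * aeval ξ f) (aeval ξ₀ f) := by
    intro N hN ξ₀ ξ ε h h' f hε h9
    have hne : aeval ξ f ≠ 0 := by
      intro h0
      rw [h0, height_zero] at h9
      norm_num at h9
    refine ⟨mul_ne_zero hε.ne_zero hne, ?_, aeval ξ f, isConjugate_aeval hN h h' f, ?_⟩
    · intro h0
      exact hne (aeval_eq_zero_of hN h h' h0)
    · obtain ⟨m, hm, h1⟩ := hε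
      exact ⟨m, hm, by rw [mul_div_assoc, div_self hne, mul_one, h1]⟩
  rcases h with ⟨ε, θ, hε, hθ, rfl⟩ | ⟨ε, ω, θ, hε, hω, hθ, rfl⟩
  · left
    have h1 : ∀ x : ℂ, 1 + x = aeval x (1 + X : ℤ[X]) := fun x => by simp
    have h9 := height_fifteen hθ
    rw [h1] at h9
    rw [h1 θ, h1 (omega 15)]
    exact aux (by norm_num) (omega_prim (by norm_num)) hθ _ hε h9
  · right
    have h9 := height_thirtyfive hω hθ
    rw [show 1 + ω * (1 + θ) = 1 + ω + ω * θ by ring]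
    rw [← aeval_poly35 hω hθ] at h9 ⊢
    rw [← aeval_poly35 (omega_prim (by norm_num)) (omega_prim (by norm_num))]
    exact aux (N := 35) (by norm_num)
      (mul_prim (omega_prim (n := 7) (by norm_num)) (omega_prim (n := 5) (by norm_num))
        (by norm_num))
      (mul_prim hω hθ (by norm_num)) _ hε h9

theorem height_of_equiv {N : ℕ} (hN : 0 < N) {β ξ₀ : ℂ} (h : IsPrimitiveRoot ξ₀ N) {f : ℤ[X]}
    (he : Equivalent β (aeval ξ₀ f)) : casselsHeight β = casselsHeight (aeval ξ₀ f) := by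
  obtain ⟨hβ0, _, γ', hc, m, hm, hr⟩ := he
  obtain ⟨ξ, hξ, rfl⟩ := exists_of_isConjugate hN h hc
  have hne : aeval ξ f ≠ 0 := by
    intro h0
    rw [h0, div_zero, zero_pow hm.ne'] at hr
    exact zero_ne_one hr
  have h1 : β = (β / aeval ξ f) * aeval ξ f := by field_simp
  rw [h1, height_root_mul hN (aeval_mem hξ.pow_eq_one f) hm hr, height_aeval hN hξ,
    height_aeval hN h]

theorem zmod_root : (1 + 40 + 40 ^ 15 : ZMod 71) = 0 := by decide

theorem zmod_prim : IsPrimitiveRoot (40 : ZMod 71) 35 := by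
  apply IsPrimitiveRoot.mk_of_lt _ (by norm_num) (by decide)
  intro l hl0 hl
  interval_cases l <;> decide

theorem zmod_ne : ((35 : ℕ) : ZMod 71) ≠ 0 := by decide

/-- `1 + ω₇ + ω₇ω₅` (or any conjugate) is not a unit -/
theorem not_unit {ξ : ℂ} (hξ : IsPrimitiveRoot ξ 35) {u : ℂ} (hu : IsIntegral ℤ u)
    (h : aeval ξ poly35 * u = 1) : False := by
  have hne : aeval ξ poly35 ≠ 0 := left_ne_zero_of_mul_eq_one h
  have hu2 : u = (aeval ξ poly35)⁻¹ := by field_simp; linear_combination h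
  have hum : u ∈ ℚ⟮ξ⟯ := by
    rw [hu2]; exact inv_mem (aeval_mem_field _)
  have hmem := mem_cycRing (N := 35) (by norm_num) hξ hu hum
  obtain ⟨g, hg⟩ := exists_poly (by norm_num) hξ hmem
  have h0 : aeval ξ (poly35 * g - 1) = 0 := by
    rw [map_sub, map_mul, hg, h, map_one, sub_self]
  have hd : cyclotomic 35 ℤ ∣ poly35 * g - 1 := by
    rw [cyclotomic_eq_minpoly hξ (by norm_num)]
    exact minpoly.isIntegrallyClosed_dvd (hξ.isIntegral (by norm_num)) h0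
  obtain ⟨q, hq⟩ := hd
  have hprime : Fact (Nat.Prime 71) := ⟨by norm_num⟩
  have h2 := congrArg (fun r : ℤ[X] => aeval (40 : ZMod 71) r) hq
  simp only [map_sub, map_mul, map_one] at h2
  have h3 : aeval (40 : ZMod 71) poly35 = 0 := by
    simpa [poly35] using zmod_root
  have h4 : aeval (40 : ZMod 71) (cyclotomic 35 ℤ) = 0 := by
    have : NeZero ((35 : ℕ) : ZMod 71) := ⟨zmod_ne⟩
    have h5 := isRoot_cyclotomic_iff.mpr zmod_prim
    rw [IsRoot.def, ← map_cyclotomic_int] at h5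
    rwa [aeval_def, eval₂_eq_eval_map]
  rw [h3, h4, zero_mul, zero_mul, zero_sub, neg_eq_zero] at h2
  exact one_ne_zero h2

theorem fifteen_unit {θ : ℂ} (hθ : IsPrimitiveRoot θ 15) :
    ∃ u : ℂ, IsIntegral ℤ u ∧ (1 + θ) * u = 1 := by
  have h1 : θ ^ 15 = 1 := hθ.pow_eq_one
  have hsum := hθ.geom_sum_eq_zero (by norm_num)
  have hint : IsIntegral ℤ θ := hθ.isIntegral (by norm_num)
  refine ⟨∑ k ∈ Finset.range 8, θ ^ (2 * k), ?_, ?_⟩
  · exact IsIntegral.sum _ fun k _ => hint.pow _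
  · simp only [Finset.sum_range_succ, Finset.sum_range_zero] at hsum ⊢
    linear_combination hsum + h1

theorem not_equivalent :
    ¬ Equivalent (1 + omega 15) (1 + omega 7 + omega 7 * omega 5) := by
  rintro ⟨hβ0, hγ0, γ', hc, m, hm, hr⟩
  have h7 : IsPrimitiveRoot (omega 7) 7 := omega_prim (by norm_num)
  have h5 : IsPrimitiveRoot (omega 5) 5 := omega_prim (by norm_num)
  rw [← aeval_poly35 h7 h5] at hc
  obtain ⟨ξ, hξ, rfl⟩ := exists_of_isConjugate (N := 35) (by norm_num)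
    (mul_prim h7 h5 (by norm_num)) hc
  obtain ⟨u, hu, hu1⟩ := fifteen_unit (omega_prim (n := 15) (by norm_num))
  have hne : aeval ξ poly35 ≠ 0 := by
    intro h0
    rw [h0, div_zero, zero_pow hm.ne'] at hr
    exact zero_ne_one hr
  set ε := (1 + omega 15) / aeval ξ poly35 with hε
  have hεint : IsIntegral ℤ ε := IsIntegral.of_pow hm (by rw [hr]; exact isIntegral_one)
  apply not_unit hξ (u := ε * u) (hεint.mul hu)
  rw [← hu1, hε]
  field_simp

end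

end Pool.Agent.MP_42a792_nt
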