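import Pool.Agent.MP_42a792_nt.Defs

/-!
# Cassels height: definition and the bridge to sums over primitive roots of unity
-/

open Polynomial IntermediateField

namespace Pool.Agent.MP_42a792_nt

noncomputable section

theorem sum_emb {K L : Type*} [Field K] [Field L] [Algebra ℚ K] [Algebra ℚ L] [Algebra K L]
    [IsScalarTower ℚ K L] [FiniteDimensional ℚ L] [FiniteDimensional ℚ K]
    (g : ℂ → ℝ) (x : K) :
    ∑ σ : L →ₐ[ℚ] ℂ, g (σ (algebraMap K L x)) =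
      (Module.finrank K L : ℝ) * ∑ τ : K →ₐ[ℚ] ℂ, g (τ x) := by
  have : FiniteDimensional K L := FiniteDimensional.right ℚ K L
  have : Algebra.IsSeparable K L := Algebra.isSeparable_tower_top_of_isSeparable ℚ K L
  rw [Fintype.sum_equiv algHomEquivSigma (fun σ : L →ₐ[ℚ] ℂ => _) fun σ => g (σ.1 x),
    ← Finset.univ_sigma_univ, Finset.sum_sigma, Finset.mul_sum]
  · refine Finset.sum_congr rfl fun σ _ => ?_
    let : Algebra K ℂ := σ.toRingHom.toAlgebra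
    simp_rw [Finset.sum_const, Finset.card_univ, ← AlgHom.card K L ℂ]
    simp
  · intro σ
    simp only [algHomEquivSigma, Equiv.coe_fn_mk, AlgHom.domRestrict, AlgHom.comp_apply,
      IsScalarTower.coe_toAlgHom']

/-- **Bridge.** The Cassels height of `f(ξ₀)`, for `ξ₀` a primitive `N`-th root of unity and an
integral polynomial `f`, is the average of `|f(ξ)|²` over all primitive `N`-th roots of unity. -/
theorem height_aeval {N : ℕ} (hN : 0 < N) {ξ₀ : ℂ} (h : IsPrimitiveRoot ξ₀ N) (f : ℤ[X]) :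
    casselsHeight (aeval ξ₀ f) =
      (∑ ξ ∈ primitiveRoots N ℂ, ‖aeval ξ f‖ ^ 2) / (Nat.totient N : ℝ) := by
  have : NeZero N := ⟨hN.ne'⟩
  set β : ℂ := aeval ξ₀ f with hβ
  have hmem : β ∈ ℚ⟮ξ₀⟯ := by
    have h1 : (aeval ξ₀ (f.map (algebraMap ℤ ℚ)) : ℂ) = β := by
      rw [aeval_map_algebraMap]
    rw [← h1]
    have h2 := Polynomial.aeval_mem_adjoin_singleton ℚ (p := f.map (algebraMap ℤ ℚ)) ξ₀
    exact IntermediateField.algebra_adjoin_le_adjoin ℚ _ h2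
  have hle : ℚ⟮β⟯ ≤ ℚ⟮ξ₀⟯ := by
    rw [adjoin_simple_le_iff]; exact hmem
  have hcyc : IsCyclotomicExtension {N} ℚ ℚ⟮ξ₀⟯ := by
    change IsCyclotomicExtension {N} ℚ (IntermediateField.adjoin ℚ {ξ₀}).toSubalgebra
    rw [IntermediateField.adjoin_simple_toSubalgebra_of_isAlgebraic
      ((h.isIntegral hN).tower_top (A := ℚ)).isAlgebraic]
    exact h.adjoin_isCyclotomicExtension ℚ
  have : FiniteDimensional ℚ ℚ⟮ξ₀⟯ := IsCyclotomicExtension.finiteDimensional {N} ℚ _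
  let : Algebra ℚ⟮β⟯ ℚ⟮ξ₀⟯ := (IntermediateField.inclusion hle).toAlgebra
  have : IsScalarTower ℚ ℚ⟮β⟯ ℚ⟮ξ₀⟯ := IsScalarTower.of_algebraMap_eq fun x => rfl
  have : FiniteDimensional ℚ ℚ⟮β⟯ := FiniteDimensional.left ℚ ℚ⟮β⟯ ℚ⟮ξ₀⟯
  have : NumberField ℚ⟮β⟯ := ⟨⟩
  have hirr : Irreducible (cyclotomic N ℚ) := cyclotomic.irreducible_rat hN
  have hgen : IsPrimitiveRoot (AdjoinSimple.gen ℚ ξ₀) N := by
    rw [← IsPrimitiveRoot.coe_submonoidClass_iff]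
    simpa using h
  have hfin : Module.finrank ℚ ℚ⟮ξ₀⟯ = Nat.totient N :=
    IsCyclotomicExtension.finrank (K := ℚ) (n := N) ℚ⟮ξ₀⟯ hirr
  have hmul := Module.finrank_mul_finrank ℚ ℚ⟮β⟯ ℚ⟮ξ₀⟯
  have key := sum_emb (K := ℚ⟮β⟯) (L := ℚ⟮ξ₀⟯) (fun z => ‖z‖ ^ 2) (AdjoinSimple.gen ℚ β)
  have hgenβ : (algebraMap ℚ⟮β⟯ ℚ⟮ξ₀⟯ (AdjoinSimple.gen ℚ β)) =
      aeval (AdjoinSimple.gen ℚ ξ₀) f := by
    apply Subtype.ext
    have : ((aeval (AdjoinSimple.gen ℚ ξ₀) f : ℚ⟮ξ₀⟯) : ℂ) = aeval ξ₀ f := by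
      have := Polynomial.aeval_algebraMap_apply ℂ (AdjoinSimple.gen ℚ ξ₀) f
      rw [AdjoinSimple.algebraMap_gen] at this
      exact this.symm
    rw [this]
    rfl
  have hL : ∑ σ : ℚ⟮ξ₀⟯ →ₐ[ℚ] ℂ, ‖σ (algebraMap ℚ⟮β⟯ ℚ⟮ξ₀⟯ (AdjoinSimple.gen ℚ β))‖ ^ 2 =
      ∑ ξ ∈ primitiveRoots N ℂ, ‖aeval ξ f‖ ^ 2 := by
    rw [hgenβ]
    rw [Fintype.sum_equiv (hgen.embeddingsEquivPrimitiveRoots ℂ hirr) _
      (fun ξ : primitiveRoots N ℂ => ‖aeval (ξ : ℂ) f‖ ^ 2)]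
    · exact Finset.sum_coe_sort (primitiveRoots N ℂ) (fun ξ => ‖aeval ξ f‖ ^ 2)
    · intro σ
      rw [IsPrimitiveRoot.embeddingsEquivPrimitiveRoots_apply_coe]
      congr 2
      rw [← AlgHom.restrictScalars_apply ℤ σ, ← Polynomial.aeval_algHom_apply]
      rfl
  have hK : ∑ᶠ σ : ℚ⟮β⟯ →+* ℂ, ‖σ (AdjoinSimple.gen ℚ β)‖ ^ 2 =
      ∑ τ : ℚ⟮β⟯ →ₐ[ℚ] ℂ, ‖τ (AdjoinSimple.gen ℚ β)‖ ^ 2 := by
    rw [finsum_eq_sum_of_fintype]
    exact Fintype.sum_equiv (RingHom.equivRatAlgHom ℚ⟮β⟯ ℂ) _ _ fun _ => by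
      simp [RingHom.equivRatAlgHom_apply]
  have h1 : (Module.finrank ℚ ℚ⟮β⟯ : ℝ) ≠ 0 := by
    exact_mod_cast (Module.finrank_pos (R := ℚ) (M := ℚ⟮β⟯)).ne'
  have h2 : (Module.finrank ℚ⟮β⟯ ℚ⟮ξ₀⟯ : ℝ) ≠ 0 := by
    have : 0 < Module.finrank ℚ⟮β⟯ ℚ⟮ξ₀⟯ := by
      rcases Nat.eq_zero_or_pos (Module.finrank ℚ⟮β⟯ ℚ⟮ξ₀⟯) with h0 | h0
      · rw [h0, mul_zero, hfin] at hmul
        exact absurd hmul.symm (Nat.totient_pos.mpr hN).ne'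
      · exact h0
    exact_mod_cast this.ne'
  unfold casselsHeight
  rw [hK, ← hL, key, ← hfin, ← hmul]
  push_cast
  field_simp

end

end Pool.Agent.MP_42a792_nt
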