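import Pool.Agent.MP_42a792_nt.Structure

/-!
# The classification by induction on the level
-/

open Polynomial IntermediateField

namespace Pool.Agent.MP_42a792_nt

noncomputable section

/-- Heights below `3/2`: the nonzero ones are roots of unity. -/
theorem small_height : ∀ N : ℕ, 0 < N → ∀ β ∈ cycRing N, casselsHeight β < 3 / 2 → β ≠ 0 →
    IsRoot1 β := by
  intro N
  induction N using Nat.strong_induction_on with
  | _ N ih =>
  intro hN β hβ hlt hβ0
  rcases level_cases hN with ⟨p, M, hp, hM, rfl, hpM⟩ | hcase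
  · -- ramified
    obtain ⟨S, γ, ξ, hξ, hγM, hγ0, hsum, hht⟩ := expansion_ramified hp hM hpM hβ
    have hcard : (S.card : ℝ) ≤ casselsHeight β := by
      rw [hht]
      calc (S.card : ℝ) = ∑ i ∈ S, (1 : ℝ) := by simp
        _ ≤ _ := Finset.sum_le_sum fun i hi => one_le_height hM (hγM i) (hγ0 i hi)
    have hcard' : S.card < 2 := by
      have : (S.card : ℝ) < 2 := by linarith
      exact_mod_cast this
    have hMlt : M < p * M := by
      have := hp.two_le
      nlinarith
    interval_cases hc : S.card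
    · rw [Finset.card_eq_zero] at hc
      subst hc
      simp at hsum
      exact absurd hsum hβ0
    · obtain ⟨i, rfl⟩ := Finset.card_eq_one.mp hc
      rw [Finset.sum_singleton] at hsum hht
      rw [hsum]
      exact (hξ.pow i).mul (ih M hMlt hM (γ i) (hγM i) (by linarith)
        (hγ0 i (Finset.mem_singleton_self i)))
  · by_cases h6 : N ∣ 6
    · -- Eisenstein integers
      obtain ⟨ω, hω⟩ := exists_prim (N := 3) (by norm_num)
      obtain ⟨a, b, rfl⟩ := eisenstein h6 hω hβ
      rw [height_eisenstein hω] at hlt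
      have h1 : a ^ 2 - a * b + b ^ 2 < 2 := by
        have : ((a ^ 2 - a * b + b ^ 2 : ℤ) : ℝ) < 2 := by linarith
        exact_mod_cast this
      have hω3 : ω ^ 3 = 1 := hω.pow_eq_one
      have hsq := omega_sq hω
      have hωr : IsRoot1 ω := ⟨3, by norm_num, hω3⟩
      have h1r : IsRoot1 (1 : ℂ) := ⟨1, by norm_num, by simp⟩
      have ha : a ^ 2 < 3 := by nlinarith [sq_nonneg (a - 2 * b)]
      have hb : b ^ 2 < 3 := by nlinarith [sq_nonneg (b - 2 * a)]
      have ha1 : -1 ≤ a := by nlinarith
      have ha2 : a ≤ 1 := by nlinarith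
      have hb1 : -1 ≤ b := by nlinarith
      have hb2 : b ≤ 1 := by nlinarith
      interval_cases a <;> interval_cases b <;> first
        | (exfalso; revert h1; norm_num; done)
        | (exfalso; apply hβ0; push_cast; ring; done)
        | skip
      · have : ((-1 : ℤ) : ℂ) + ((-1 : ℤ) : ℂ) * ω = ω ^ 2 := by
          rw [hsq]; push_cast; ring
        rw [this]; exact hωr.pow 2
      · have : ((-1 : ℤ) : ℂ) + ((0 : ℤ) : ℂ) * ω = -1 := by push_cast; ring
        rw [this]; exact h1r.neg
      · have : ((0 : ℤ) : ℂ) + ((-1 : ℤ) : ℂ) * ω = -ω := by push_cast; ring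
        rw [this]; exact hωr.neg
      · have : ((0 : ℤ) : ℂ) + ((1 : ℤ) : ℂ) * ω = ω := by push_cast; ring
        rw [this]; exact hωr
      · have : ((1 : ℤ) : ℂ) + ((0 : ℤ) : ℂ) * ω = 1 := by push_cast; ring
        rw [this]; exact h1r
      · have : ((1 : ℤ) : ℂ) + ((1 : ℤ) : ℂ) * ω = -ω ^ 2 := by
          rw [hsq]; push_cast; ring
        rw [this]; exact (hωr.pow 2).neg
    · -- unramified, `p ≥ 5`
      obtain ⟨p, M, hp, hp5, hM, rfl, hcop⟩ : ∃ p M, p.Prime ∧ 5 ≤ p ∧ 0 < M ∧ N = p * M ∧
          Nat.Coprime p M := by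
        rcases hcase with ⟨p, M, hp, hp7, hM, h, hcop⟩ | ⟨M, hM, h, _, hcop⟩ | h
        · exact ⟨p, M, hp, by omega, hM, h, hcop⟩
        · exact ⟨5, M, Nat.prime_five, le_rfl, hM, h, hcop⟩
        · exact absurd h h6
      obtain ⟨ω, hω⟩ := exists_prim hp.pos
      obtain ⟨S, γ, hγM, hγ0, hSp, hsum, hht, hlow⟩ := expansion_unramified hp hM hcop hω hβ
      have hMlt : M < p * M := by nlinarith
      have hp5' : (5 : ℝ) ≤ p := by exact_mod_cast hp5
      have hcard' : S.card < 3 := by
        by_contra h3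
        have h3' : (3 : ℝ) ≤ S.card := by exact_mod_cast not_lt.mp h3
        nlinarith
      interval_cases hc : S.card
      · rw [Finset.card_eq_zero] at hc
        subst hc
        simp at hsum
        exact absurd hsum hβ0
      · obtain ⟨i, rfl⟩ := Finset.card_eq_one.mp hc
        rw [Finset.sum_singleton] at hsum
        have hr : IsRoot1 (ω ^ i) := (isRoot1_of_prim hp.pos hω).pow i
        obtain ⟨m, hm, hrm⟩ := hr
        have h1 : casselsHeight β = casselsHeight (γ i) := by
          rw [hsum, height_root_mul hM (hγM i) hm hrm]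
        rw [hsum]
        exact IsRoot1.mul ⟨m, hm, hrm⟩ (ih M hMlt hM (γ i) (hγM i) (by linarith)
          (hγ0 i (Finset.mem_singleton_self i)))
      · exfalso
        have h1 : (2 : ℝ) ≤ ∑ i ∈ S, casselsHeight (γ i) := by
          calc (2 : ℝ) = ∑ i ∈ S, (1 : ℝ) := by simp [hc]
            _ ≤ _ := Finset.sum_le_sum fun i hi => one_le_height hM (hγM i) (hγ0 i hi)
        have h2 : 0 ≤ ∑ i ∈ S, ∑ j ∈ S, casselsHeight (γ i - γ j) :=
          Finset.sum_nonneg fun i _ => Finset.sum_nonneg fun j _ =>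
            height_nonneg_aux hM (sub_mem (hγM i) (hγM j))
        push_cast at hht
        nlinarith

/-- The two families of values of height `9/4`. -/
def Good (z : ℂ) : Prop :=
  (∃ ε θ : ℂ, IsRoot1 ε ∧ IsPrimitiveRoot θ 15 ∧ z = ε * (1 + θ)) ∨
  (∃ ε ω θ : ℂ, IsRoot1 ε ∧ IsPrimitiveRoot ω 7 ∧ IsPrimitiveRoot θ 5 ∧
    z = ε * (1 + ω * (1 + θ)))

theorem Good.mul {z ε : ℂ} (hz : Good z) (hε : IsRoot1 ε) : Good (ε * z) := by
  rcases hz with ⟨δ, θ, hδ, hθ, rfl⟩ | ⟨δ, ω, θ, hδ, hω, hθ, rfl⟩
  · exact Or.inl ⟨ε * δ, θ, hε.mul hδ, hθ, by ring⟩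
  · exact Or.inr ⟨ε * δ, ω, θ, hε.mul hδ, hω, hθ, by ring⟩

theorem height_symm {N : ℕ} (hN : 0 < N) {a b : ℂ} (ha : a ∈ cycRing N) (hb : b ∈ cycRing N) :
    casselsHeight (b - a) = casselsHeight (a - b) := by
  rw [← height_neg hN (sub_mem ha hb), neg_sub]

theorem height_sub_root {a b : ℂ} (ha : IsRoot1 a) (hb : IsRoot1 b) :
    casselsHeight (a - b) = casselsHeight (1 + -(b * a⁻¹)) := by
  have ha0 := ha.ne_zero
  obtain ⟨m, hm, h⟩ := (hb.mul ha.inv).neg
  have h1 : a - b = a * (1 + -(b * a⁻¹)) := by field_simp; ring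
  obtain ⟨n, hn, h'⟩ := ha
  rw [h1]
  exact height_root_mul hm (add_mem (one_mem _) (root_mem h)) hn h'

/-- `p = 7`, one coefficient of height at least `3/2`. -/
theorem seven_two {M : ℕ} (hM : 0 < M) {a b : ℂ} (ha : a ∈ cycRing M) (hb : b ∈ cycRing M)
    (ha0 : a ≠ 0) (hb2 : 3 / 2 ≤ casselsHeight b)
    (h : 27 / 2 = 5 * (casselsHeight a + casselsHeight b) + casselsHeight (a - b)) :
    IsRoot1 a ∧ ∃ θ, IsPrimitiveRoot θ 5 ∧ b = a * (1 + θ) := by
  have hd0 := height_nonneg_aux hM (sub_mem ha hb)
  have har : IsRoot1 a := small_height M hM a ha (by linarith) ha0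
  have ha1 := har.height
  have hne : a - b ≠ 0 := by
    intro h0
    have : b = a := by linear_combination -h0
    rw [this, ha1] at hb2
    norm_num at hb2
  have hd1 := one_le_height hM (sub_mem ha hb) hne
  have hb3 : casselsHeight b = 3 / 2 := by linarith
  have hd : casselsHeight (a - b) < 3 / 2 := by linarith
  have hdr : IsRoot1 (a - b) := small_height M hM _ (sub_mem ha hb) hd hne
  have hθ : IsRoot1 (-((a - b) * a⁻¹)) := (hdr.mul har.inv).neg
  refine ⟨har, -((a - b) * a⁻¹), ?_, ?_⟩
  · obtain ⟨m, hm, hθm⟩ := hθ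
    refine prim_five hm hθm ?_
    rw [← height_sub_root har hdr, ← hb3]
    congr 1
    ring
  · have := har.ne_zero
    field_simp
    ring

theorem seven_both {M : ℕ} (hM : 0 < M) {a b : ℂ} (ha : a ∈ cycRing M) (hb : b ∈ cycRing M)
    (ha0 : a ≠ 0) (hb0 : b ≠ 0)
    (h : 27 / 2 = 5 * (casselsHeight a + casselsHeight b) + casselsHeight (a - b)) :
    (IsRoot1 a ∧ ∃ θ, IsPrimitiveRoot θ 5 ∧ b = a * (1 + θ)) ∨
    (IsRoot1 b ∧ ∃ θ, IsPrimitiveRoot θ 5 ∧ a = b * (1 + θ)) := by
  by_cases hb2 : 3 / 2 ≤ casselsHeight b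
  · exact Or.inl (seven_two hM ha hb ha0 hb2 h)
  by_cases ha2 : 3 / 2 ≤ casselsHeight a
  · right
    apply seven_two hM hb ha hb0 ha2
    rw [height_symm hM ha hb, h]; ring
  · exfalso
    have har : IsRoot1 a := small_height M hM a ha (by linarith) ha0
    have hbr : IsRoot1 b := small_height M hM b hb (by linarith) hb0
    rw [har.height, hbr.height, height_sub_root har hbr] at h
    obtain ⟨m, hm, hr⟩ := (hbr.mul har.inv).neg
    exact height_one_add_ne hm hr (by linarith)

/-- two Eisenstein units at distance `√3` -/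
theorem prim_three {a b : ℂ} (ha : ‖a‖ ^ 2 = 1) (hb : ‖b‖ ^ 2 = 1) (hab : ‖a - b‖ ^ 2 = 3) :
    IsPrimitiveRoot (b * a⁻¹) 3 := by
  have ha0 : a ≠ 0 := by rintro rfl; norm_num at ha
  have ha1 : ‖a‖ = 1 := by nlinarith [norm_nonneg a]
  have hb1 : ‖b‖ = 1 := by nlinarith [norm_nonneg b]
  set θ := b * a⁻¹ with hθ
  have hθ1 : ‖θ‖ = 1 := by rw [hθ, norm_mul, norm_inv, ha1, hb1]; norm_num
  have hd : ‖1 - θ‖ ^ 2 = 3 := by
    have : 1 - θ = (a - b) * a⁻¹ := by rw [hθ]; field_simp
    rw [this, norm_mul, norm_inv, ha1, inv_one, mul_one, hab]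
  have e1 : θ.re * θ.re + θ.im * θ.im = 1 := by
    rw [← Complex.normSq_apply, Complex.normSq_eq_norm_sq, hθ1]; norm_num
  have e2 : (1 - θ.re) * (1 - θ.re) + θ.im * θ.im = 3 := by
    rw [← Complex.normSq_eq_norm_sq, Complex.normSq_apply] at hd
    simp at hd
    linarith
  have e3 : θ.re = -1 / 2 := by linarith
  have e4 : θ ^ 2 + θ + 1 = 0 := by
    apply Complex.ext
    · simp [pow_two]
      rw [e3] at e1 ⊢
      linarith
    · simp [pow_two]
      rw [e3]
      ring
  have h3 : θ ^ 3 = 1 := by linear_combination (θ - 1) * e4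
  have hne : θ ≠ 1 := by
    intro h; rw [h] at e4; norm_num at e4
  have : Fact (Nat.Prime 3) := ⟨Nat.prime_three⟩
  have h4 := orderOf_eq_prime h3 hne
  have h5 := IsPrimitiveRoot.orderOf θ
  rwa [h4] at h5

theorem mod_four (s t : ℤ) : s ^ 2 - s * t + t ^ 2 ≠ 6 := by
  intro h
  have h1 : (s ^ 2 - s * t + t ^ 2) % 4 = 2 := by rw [h]; norm_num
  have hs : s % 4 = 0 ∨ s % 4 = 1 ∨ s % 4 = 2 ∨ s % 4 = 3 := by omega
  have ht : t % 4 = 0 ∨ t % 4 = 1 ∨ t % 4 = 2 ∨ t % 4 = 3 := by omega
  rcases hs with hs | hs | hs | hs <;> rcases ht with ht | ht | ht | ht <;>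
    simp [pow_two, Int.add_emod, Int.sub_emod, Int.mul_emod, hs, ht] at h1

theorem five_two {M : ℕ} (hM : 0 < M) (hM6 : M ∣ 6) {a b : ℂ} (ha : a ∈ cycRing M)
    (hb : b ∈ cycRing M) (ha0 : a ≠ 0) (hb0 : b ≠ 0)
    (h : 9 = 3 * (casselsHeight a + casselsHeight b) + casselsHeight (a - b)) :
    IsRoot1 a ∧ IsPrimitiveRoot (b * a⁻¹) 3 := by
  obtain ⟨ω, hω⟩ := exists_prim (N := 3) (by norm_num)
  have ha1 := one_le_height hM ha ha0
  have hb1 := one_le_height hM hb hb0
  have hd0 := height_nonneg_aux hM (sub_mem ha hb)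
  have hdiff : a ≠ b → 1 ≤ casselsHeight (a - b) := fun hne =>
    one_le_height hM (sub_mem ha hb) (sub_ne_zero.mpr hne)
  have hmem := sub_mem ha hb
  have hA := ha
  obtain ⟨a1, a2, hae⟩ := eisenstein hM6 hω ha
  obtain ⟨b1, b2, hbe⟩ := eisenstein hM6 hω hb
  have hab : a - b = ((a1 - b1 : ℤ) : ℂ) + ((a2 - b2 : ℤ) : ℂ) * ω := by
    rw [hae, hbe]; push_cast; ring
  have na := height_eisenstein hω a1 a2
  have nb := height_eisenstein hω b1 b2
  have nd := height_eisenstein hω (a1 - b1) (a2 - b2)
  rw [← hae] at na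
  rw [← hbe] at nb
  rw [← hab] at nd
  set A : ℤ := a1 ^ 2 - a1 * a2 + a2 ^ 2 with hAdef
  set B : ℤ := b1 ^ 2 - b1 * b2 + b2 ^ 2 with hBdef
  set D : ℤ := (a1 - b1) ^ 2 - (a1 - b1) * (a2 - b2) + (a2 - b2) ^ 2 with hDdef
  rw [na, nb, nd] at h
  rw [na] at ha1
  rw [nb] at hb1
  rw [nd] at hd0 hdiff
  have h' : 9 = 3 * (A + B) + D := by exact_mod_cast h
  have ha1' : 1 ≤ A := by exact_mod_cast ha1
  have hb1' : 1 ≤ B := by exact_mod_cast hb1
  have hd0' : 0 ≤ D := by exact_mod_cast hd0
  have hne : a ≠ b := by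
    intro hab'
    have hD : D = 0 := by
      have : casselsHeight (a - b) = 0 := by rw [hab', sub_self, height_zero]
      rw [nd] at this
      exact_mod_cast this
    have hAB : A = B := by
      have : (A : ℝ) = B := by rw [← na, ← nb, hab']
      exact_mod_cast this
    omega
  have hd1 : 1 ≤ D := by exact_mod_cast hdiff hne
  have hA1 : A = 1 := by omega
  have hB1 : B = 1 := by omega
  have hD3 : D = 3 := by omega
  refine ⟨small_height M hM a hA (by rw [na, hA1]; norm_num) ha0, ?_⟩
  apply prim_three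
  · rw [hae, normSq_eisenstein hω, ← hAdef, hA1]; norm_num
  · rw [hbe, normSq_eisenstein hω, ← hBdef, hB1]; norm_num
  · rw [hab, normSq_eisenstein hω, ← hDdef, hD3]; norm_num

theorem five_three {M : ℕ} (hM : 0 < M) (hM6 : M ∣ 6) {a b c : ℂ} (ha : a ∈ cycRing M)
    (hb : b ∈ cycRing M) (hc : c ∈ cycRing M) (ha0 : a ≠ 0) (hb0 : b ≠ 0) (hc0 : c ≠ 0)
    (h : 9 = 2 * (casselsHeight a + casselsHeight b + casselsHeight c) +
      (casselsHeight (a - b) + casselsHeight (b - c) + casselsHeight (a - c))) : False := by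
  obtain ⟨ω, hω⟩ := exists_prim (N := 3) (by norm_num)
  have ha1 := one_le_height hM ha ha0
  have hb1 := one_le_height hM hb hb0
  have hc1 := one_le_height hM hc hc0
  have hab0 := height_nonneg_aux hM (sub_mem ha hb)
  have hbc0 := height_nonneg_aux hM (sub_mem hb hc)
  have hac0 := height_nonneg_aux hM (sub_mem ha hc)
  have hab : a ≠ b → 1 ≤ casselsHeight (a - b) := fun hne =>
    one_le_height hM (sub_mem ha hb) (sub_ne_zero.mpr hne)
  have hbc : b ≠ c → 1 ≤ casselsHeight (b - c) := fun hne =>
    one_le_height hM (sub_mem hb hc) (sub_ne_zero.mpr hne)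
  have hac : a ≠ c → 1 ≤ casselsHeight (a - c) := fun hne =>
    one_le_height hM (sub_mem ha hc) (sub_ne_zero.mpr hne)
  obtain ⟨a1, a2, hae⟩ := eisenstein hM6 hω ha
  obtain ⟨b1, b2, hbe⟩ := eisenstein hM6 hω hb
  obtain ⟨c1, c2, hce⟩ := eisenstein hM6 hω hc
  have eab : a - b = ((a1 - b1 : ℤ) : ℂ) + ((a2 - b2 : ℤ) : ℂ) * ω := by
    rw [hae, hbe]; push_cast; ring
  have ebc : b - c = ((b1 - c1 : ℤ) : ℂ) + ((b2 - c2 : ℤ) : ℂ) * ω := by
    rw [hbe, hce]; push_cast; ring
  have eac : a - c = ((a1 - c1 : ℤ) : ℂ) + ((a2 - c2 : ℤ) : ℂ) * ω := by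
    rw [hae, hce]; push_cast; ring
  have na := height_eisenstein hω a1 a2
  have nb := height_eisenstein hω b1 b2
  have nc := height_eisenstein hω c1 c2
  have nab := height_eisenstein hω (a1 - b1) (a2 - b2)
  have nbc := height_eisenstein hω (b1 - c1) (b2 - c2)
  have nac := height_eisenstein hω (a1 - c1) (a2 - c2)
  rw [← hae] at na
  rw [← hbe] at nb
  rw [← hce] at nc
  rw [← eab] at nab
  rw [← ebc] at nbc
  rw [← eac] at nac
  set A : ℤ := a1 ^ 2 - a1 * a2 + a2 ^ 2 with hAdef
  set B : ℤ := b1 ^ 2 - b1 * b2 + b2 ^ 2 with hBdef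
  set E : ℤ := c1 ^ 2 - c1 * c2 + c2 ^ 2 with hEdef
  set X : ℤ := (a1 - b1) ^ 2 - (a1 - b1) * (a2 - b2) + (a2 - b2) ^ 2 with hXdef
  set Y : ℤ := (b1 - c1) ^ 2 - (b1 - c1) * (b2 - c2) + (b2 - c2) ^ 2 with hYdef
  set Z : ℤ := (a1 - c1) ^ 2 - (a1 - c1) * (a2 - c2) + (a2 - c2) ^ 2 with hZdef
  rw [na, nb, nc, nab, nbc, nac] at h
  rw [na] at ha1
  rw [nb] at hb1
  rw [nc] at hc1
  rw [nab] at hab0 hab
  rw [nbc] at hbc0 hbc
  rw [nac] at hac0 hac
  have h' : 9 = 2 * (A + B + E) + (X + Y + Z) := by exact_mod_cast h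
  have ha1' : 1 ≤ A := by exact_mod_cast ha1
  have hb1' : 1 ≤ B := by exact_mod_cast hb1
  have hc1' : 1 ≤ E := by exact_mod_cast hc1
  have hX0 : 0 ≤ X := by exact_mod_cast hab0
  have hY0 : 0 ≤ Y := by exact_mod_cast hbc0
  have hZ0 : 0 ≤ Z := by exact_mod_cast hac0
  have hXn : a ≠ b → 1 ≤ X := fun h => by exact_mod_cast hab h
  have hYn : b ≠ c → 1 ≤ Y := fun h => by exact_mod_cast hbc h
  have hZn : a ≠ c → 1 ≤ Z := fun h => by exact_mod_cast hac h
  have hXe : a = b → A = B := fun hh => by
    have : (A : ℝ) = B := by rw [← na, ← nb, hh]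
    exact_mod_cast this
  have hYe : b = c → B = E := fun hh => by
    have : (B : ℝ) = E := by rw [← nb, ← nc, hh]
    exact_mod_cast this
  have hXz : a = b → X = 0 := fun hh => by
    have : (X : ℝ) = 0 := by rw [← nab, hh, sub_self, height_zero]
    exact_mod_cast this
  have hYz : b = c → Y = 0 := fun hh => by
    have : (Y : ℝ) = 0 := by rw [← nbc, hh, sub_self, height_zero]
    exact_mod_cast this
  have hZz : a = c → Z = 0 := fun hh => by
    have : (Z : ℝ) = 0 := by rw [← nac, hh, sub_self, height_zero]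
    exact_mod_cast this
  by_cases hs : A + B + E = 3
  · -- use the identity
    have hid : X + Y + Z = 3 * (A + B + E) -
        ((a1 + b1 + c1) ^ 2 - (a1 + b1 + c1) * (a2 + b2 + c2) + (a2 + b2 + c2) ^ 2) := by
      rw [hAdef, hBdef, hEdef, hXdef, hYdef, hZdef]; ring
    exact mod_four (a1 + b1 + c1) (a2 + b2 + c2) (by omega)
  · have hs4 : 4 ≤ A + B + E := by omega
    by_cases e1 : a = b
    · by_cases e2 : b = c
      · have e3 : a = c := e1.trans e2
        have := hXe e1; have := hYe e2; have := hXz e1; have := hYz e2; have := hZz e3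
        omega
      · have e3 : a ≠ c := fun h => e2 (e1.symm.trans h)
        have := hYn e2; have := hZn e3
        omega
    · by_cases e2 : b = c
      · have e3 : a ≠ c := fun h => e1 (h.trans e2.symm)
        have := hXn e1; have := hZn e3
        omega
      · have := hXn e1; have := hYn e2
        omega

theorem seven_three {M : ℕ} (hM : 0 < M) {a b c : ℂ} (ha : a ∈ cycRing M)
    (hb : b ∈ cycRing M) (hc : c ∈ cycRing M) (ha0 : a ≠ 0) (hb0 : b ≠ 0) (hc0 : c ≠ 0)
    (h : 27 / 2 = 4 * (casselsHeight a + casselsHeight b + casselsHeight c) +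
      (casselsHeight (a - b) + casselsHeight (b - c) + casselsHeight (a - c))) : False := by
  have ha1 := one_le_height hM ha ha0
  have hb1 := one_le_height hM hb hb0
  have hc1 := one_le_height hM hc hc0
  have hab0 := height_nonneg_aux hM (sub_mem ha hb)
  have hbc0 := height_nonneg_aux hM (sub_mem hb hc)
  have hac0 := height_nonneg_aux hM (sub_mem ha hc)
  have hab : a ≠ b → 1 ≤ casselsHeight (a - b) := fun hne =>
    one_le_height hM (sub_mem ha hb) (sub_ne_zero.mpr hne)
  have hbc : b ≠ c → 1 ≤ casselsHeight (b - c) := fun hne =>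
    one_le_height hM (sub_mem hb hc) (sub_ne_zero.mpr hne)
  have hac : a ≠ c → 1 ≤ casselsHeight (a - c) := fun hne =>
    one_le_height hM (sub_mem ha hc) (sub_ne_zero.mpr hne)
  have hA : casselsHeight a = 1 := (small_height M hM a ha (by linarith) ha0).height
  have hB : casselsHeight b = 1 := (small_height M hM b hb (by linarith) hb0).height
  have hC : casselsHeight c = 1 := (small_height M hM c hc (by linarith) hc0).height
  rw [hA, hB, hC] at h
  by_cases e1 : a = b
  · subst e1
    rw [sub_self, height_zero] at h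
    by_cases e2 : a = c
    · subst e2
      rw [sub_self, height_zero] at h
      norm_num at h
    · have := hac e2
      linarith
  · by_cases e2 : b = c
    · subst e2
      rw [sub_self, height_zero] at h
      have := hab e1
      linarith
    · by_cases e3 : a = c
      · subst e3
        rw [sub_self, height_zero, height_symm hM ha hb] at h
        have := hab e1
        linarith
      · have := hab e1; have := hbc e2; have := hac e3
        linarith

/-- **Classification** of the cyclotomic integers of height `9/4`. -/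
theorem classification : ∀ N : ℕ, 0 < N → ∀ β ∈ cycRing N, casselsHeight β = 9 / 4 →
    Good β := by
  intro N
  induction N using Nat.strong_induction_on with
  | _ N ih =>
  intro hN β hβ heq
  have hβ0 : β ≠ 0 := by
    rintro rfl
    rw [height_zero] at heq
    norm_num at heq
  rcases level_cases hN with ⟨p, M, hp, hM, rfl, hpM⟩ | hcase
  · -- ramified
    obtain ⟨S, γ, ξ, hξ, hγM, hγ0, hsum, hht⟩ := expansion_ramified hp hM hpM hβ
    have hcard : (S.card : ℝ) ≤ casselsHeight β := by
      rw [hht]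
      calc (S.card : ℝ) = ∑ i ∈ S, (1 : ℝ) := by simp
        _ ≤ _ := Finset.sum_le_sum fun i hi => one_le_height hM (hγM i) (hγ0 i hi)
    have hcard' : S.card < 3 := by
      have : (S.card : ℝ) < 3 := by linarith
      exact_mod_cast this
    have hMlt : M < p * M := by
      have := hp.two_le
      nlinarith
    interval_cases hc : S.card
    · rw [Finset.card_eq_zero] at hc
      subst hc
      simp at hsum
      exact absurd hsum hβ0
    · obtain ⟨i, rfl⟩ := Finset.card_eq_one.mp hc
      rw [Finset.sum_singleton] at hsum hht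
      rw [hsum]
      exact (ih M hMlt hM (γ i) (hγM i) (by linarith)).mul (hξ.pow i)
    · exfalso
      obtain ⟨i, j, hij, rfl⟩ := Finset.card_eq_two.mp hc
      rw [Finset.sum_pair hij] at hht
      have hi0 := hγ0 i (by simp)
      have hj0 := hγ0 j (by simp)
      have h1 := one_le_height hM (hγM i) hi0
      have h2 := one_le_height hM (hγM j) hj0
      have h3 := (small_height M hM _ (hγM i) (by linarith) hi0).height
      have h4 := (small_height M hM _ (hγM j) (by linarith) hj0).height
      linarith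
  · by_cases h6 : N ∣ 6
    · exfalso
      obtain ⟨ω, hω⟩ := exists_prim (N := 3) (by norm_num)
      obtain ⟨a, b, rfl⟩ := eisenstein h6 hω hβ
      rw [height_eisenstein hω] at heq
      have h1 : 4 * (a ^ 2 - a * b + b ^ 2) = 9 := by
        have : (4 : ℝ) * ((a ^ 2 - a * b + b ^ 2 : ℤ) : ℝ) = 9 := by linarith
        exact_mod_cast this
      omega
    · -- unramified, `p ≥ 5`
      obtain ⟨p, M, hp, hp5, hM, rfl, hcop, hM6⟩ : ∃ p M, p.Prime ∧ 5 ≤ p ∧ 0 < M ∧ N = p * M ∧
          Nat.Coprime p M ∧ (p = 5 → M ∣ 6) := by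
        rcases hcase with ⟨p, M, hp, hp7, hM, h, hcop⟩ | ⟨M, hM, h, hM6, hcop⟩ | h
        · exact ⟨p, M, hp, by omega, hM, h, hcop, fun h => by omega⟩
        · exact ⟨5, M, Nat.prime_five, le_rfl, hM, h, hcop, fun _ => hM6⟩
        · exact absurd h h6
      obtain ⟨ω, hω⟩ := exists_prim hp.pos
      obtain ⟨S, γ, hγM, hγ0, hSp, hsum, hht, hlow⟩ := expansion_unramified hp hM hcop hω hβ
      have hMlt : M < p * M := by nlinarith
      have hp5' : (5 : ℝ) ≤ p := by exact_mod_cast hp5
      have hωr : IsRoot1 ω := isRoot1_of_prim hp.pos hω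
      have hω0 : ω ≠ 0 := hωr.ne_zero
      rw [heq] at hht hlow
      have hcard' : S.card < 5 := by
        by_contra h3
        have h3' : (5 : ℝ) ≤ S.card := by exact_mod_cast not_lt.mp h3
        nlinarith
      have hS1 : (S.card : ℝ) ≤ ∑ i ∈ S, casselsHeight (γ i) := by
        calc (S.card : ℝ) = ∑ i ∈ S, (1 : ℝ) := by simp
          _ ≤ _ := Finset.sum_le_sum fun i hi => one_le_height hM (hγM i) (hγ0 i hi)
      have hS2 : 0 ≤ ∑ i ∈ S, ∑ j ∈ S, casselsHeight (γ i - γ j) :=
          Finset.sum_nonneg fun i _ => Finset.sum_nonneg fun j _ =>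
            height_nonneg_aux hM (sub_mem (hγM i) (hγM j))
      have hp_cases : p = 5 ∨ p = 7 ∨ 11 ≤ p := by
        rcases Nat.lt_or_ge p 11 with h | h
        · interval_cases p <;> first | (exfalso; revert hp; norm_num; done) | simp
        · exact Or.inr (Or.inr h)
      interval_cases hc : S.card
      · rw [Finset.card_eq_zero] at hc
        subst hc
        simp at hsum
        exact absurd hsum hβ0
      · obtain ⟨i, rfl⟩ := Finset.card_eq_one.mp hc
        rw [Finset.sum_singleton] at hsum
        have hr : IsRoot1 (ω ^ i) := hωr.pow i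
        obtain ⟨m, hm, hrm⟩ := hr
        have h1 : casselsHeight β = casselsHeight (γ i) := by
          rw [hsum, height_root_mul hM (hγM i) hm hrm]
        rw [hsum]
        exact (ih M hMlt hM (γ i) (hγM i) (by linarith)).mul ⟨m, hm, hrm⟩
      · -- two terms
        obtain ⟨i, j, hij, rfl⟩ := Finset.card_eq_two.mp hc
        have hi0 := hγ0 i (by simp)
        have hj0 := hγ0 j (by simp)
        have hip := hSp i (by simp)
        have hjp := hSp j (by simp)
        have h1 := one_le_height hM (hγM i) hi0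
        have h2 := one_le_height hM (hγM j) hj0
        simp only [Finset.sum_pair hij, sub_self, height_zero] at hht hsum
        rw [height_symm hM (hγM i) (hγM j)] at hht
        have hmain : ((p : ℝ) - 1) * (9 / 4) = ((p : ℝ) - 2) * (casselsHeight (γ i) +
            casselsHeight (γ j)) + casselsHeight (γ i - γ j) := by
          push_cast at hht
          linarith
        have hd0 := height_nonneg_aux hM (sub_mem (hγM i) (hγM j))
        rcases hp_cases with rfl | rfl | h11
        · -- p = 5
          obtain ⟨hr, hθ⟩ := five_two hM (hM6 rfl) (hγM i) (hγM j) hi0 hj0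
            (by push_cast at hmain; linarith)
          left
          refine ⟨ω ^ i * γ i, (ω ^ j * (ω ^ i)⁻¹) * (γ j * (γ i)⁻¹), (hωr.pow i).mul hr, ?_, ?_⟩
          · exact mul_prim (prim_quot hp hω hip hjp hij) hθ (by norm_num)
          · rw [hsum]
            have : ω ^ i ≠ 0 := pow_ne_zero _ hω0
            field_simp
        · -- p = 7
          right
          rcases seven_both hM (hγM i) (hγM j) hi0 hj0 (by push_cast at hmain; linarith) with
            ⟨hr, θ, hθ, hb⟩ | ⟨hr, θ, hθ, hb⟩
          · refine ⟨ω ^ i * γ i, ω ^ j * (ω ^ i)⁻¹, θ, (hωr.pow i).mul hr,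
              prim_quot hp hω hip hjp hij, hθ, ?_⟩
            rw [hsum, hb]
            have : ω ^ i ≠ 0 := pow_ne_zero _ hω0
            field_simp
          · refine ⟨ω ^ j * γ j, ω ^ i * (ω ^ j)⁻¹, θ, (hωr.pow j).mul hr,
              prim_quot hp hω hjp hip hij.symm, hθ, ?_⟩
            rw [hsum, hb]
            have : ω ^ j ≠ 0 := pow_ne_zero _ hω0
            field_simp
            ring
        · -- p ≥ 11
          exfalso
          have h11' : (11 : ℝ) ≤ p := by exact_mod_cast h11
          by_cases hbig : casselsHeight (γ i) < 3 / 2 ∧ casselsHeight (γ j) < 3 / 2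
          · have hri := small_height M hM _ (hγM i) hbig.1 hi0
            have hrj := small_height M hM _ (hγM j) hbig.2 hj0
            rw [hri.height, hrj.height] at hmain
            obtain ⟨m, hm, hm1⟩ := hri
            obtain ⟨n, hn, hn1⟩ := hrj
            have := height_sub_le hm hn hm1 hn1
            linarith
          · have hsum52 : 5 / 2 ≤ casselsHeight (γ i) + casselsHeight (γ j) := by
              rw [not_and_or, not_lt, not_lt] at hbig
              rcases hbig with h | h <;> linarith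
            have hp11 : (p : ℝ) = 11 := by nlinarith
            rw [hp11] at hmain
            have hd : casselsHeight (γ i - γ j) = 0 := by linarith
            have heq' : γ i = γ j := by
              by_contra hne
              have := one_le_height hM (sub_mem (hγM i) (hγM j)) (sub_ne_zero.mpr hne)
              linarith
            apply hbig
            rw [heq'] at hmain hd ⊢
            constructor <;> linarith
      · -- three terms
        obtain ⟨i, j, k, hij, hik, hjk, rfl⟩ := Finset.card_eq_three.mp hc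
        exfalso
        have hi0 := hγ0 i (by simp)
        have hj0 := hγ0 j (by simp)
        have hk0 := hγ0 k (by simp)
        have hsum3 : ∀ g : ℕ → ℝ, ∑ x ∈ ({i, j, k} : Finset ℕ), g x = g i + g j + g k := by
          intro g
          rw [Finset.sum_insert (by simp [hij, hik]), Finset.sum_pair hjk]; ring
        simp only [hsum3, sub_self, height_zero] at hht
        rw [height_symm hM (hγM i) (hγM j), height_symm hM (hγM j) (hγM k),
          height_symm hM (hγM i) (hγM k)] at hht
        push_cast at hht hS1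
        rcases hp_cases with rfl | rfl | h11
        · apply five_three hM (hM6 rfl) (hγM i) (hγM j) (hγM k) hi0 hj0 hk0
          push_cast at hht
          linarith
        · apply seven_three hM (hγM i) (hγM j) (hγM k) hi0 hj0 hk0
          push_cast at hht
          linarith
        · have h11' : (11 : ℝ) ≤ p := by exact_mod_cast h11
          have h1 := one_le_height hM (hγM i) hi0
          have h2 := one_le_height hM (hγM j) hj0
          have h3 := one_le_height hM (hγM k) hk0
          have d1 := height_nonneg_aux hM (sub_mem (hγM i) (hγM j))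
          have d2 := height_nonneg_aux hM (sub_mem (hγM j) (hγM k))
          have d3 := height_nonneg_aux hM (sub_mem (hγM i) (hγM k))
          nlinarith
      · -- four terms
        exfalso
        push_cast at hht hS1 hlow
        rcases hp_cases with rfl | rfl | h11
        · push_cast at hlow; linarith
        · push_cast at hlow; linarith
        · have h11' : (11 : ℝ) ≤ p := by exact_mod_cast h11
          nlinarith

end

end Pool.Agent.MP_42a792_nt
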