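import Pool.Agent.MP_42a792_nt.Height

/-!
# The rings `ℤ[ζ_N]` and basic properties of the Cassels height
-/

open Polynomial IntermediateField

namespace Pool.Agent.MP_42a792_nt

noncomputable section

/-- The ring `ℤ[ζ_N]`, as the subring of `ℂ` generated by all `N`-th roots of unity. -/
def cycRing (N : ℕ) : Subalgebra ℤ ℂ := Algebra.adjoin ℤ {z : ℂ | z ^ N = 1}

theorem root_mem {N : ℕ} {z : ℂ} (h : z ^ N = 1) : z ∈ cycRing N :=
  Algebra.subset_adjoin h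

theorem cycRing_eq {N : ℕ} (hN : 0 < N) {ξ : ℂ} (h : IsPrimitiveRoot ξ N) :
    cycRing N = Algebra.adjoin ℤ {ξ} := by
  have : NeZero N := ⟨hN.ne'⟩
  apply le_antisymm
  · apply Algebra.adjoin_le
    intro z hz
    obtain ⟨i, _, rfl⟩ := h.eq_pow_of_pow_eq_one hz
    exact pow_mem (Algebra.subset_adjoin (Set.mem_singleton _)) i
  · apply Algebra.adjoin_mono
    intro z hz
    rw [Set.mem_singleton_iff] at hz
    rw [hz]
    exact h.pow_eq_one

theorem exists_poly {N : ℕ} (hN : 0 < N) {ξ : ℂ} (h : IsPrimitiveRoot ξ N) {β : ℂ}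
    (hβ : β ∈ cycRing N) : ∃ f : ℤ[X], aeval ξ f = β := by
  rw [cycRing_eq hN h, Algebra.adjoin_singleton_eq_range_aeval] at hβ
  exact hβ

theorem aeval_mem {N : ℕ} {ξ : ℂ} (h : ξ ^ N = 1) (f : ℤ[X]) :
    aeval ξ f ∈ cycRing N := by
  have h1 : aeval ξ f ∈ Algebra.adjoin ℤ {ξ} := Polynomial.aeval_mem_adjoin_singleton ℤ ξ
  refine Algebra.adjoin_mono ?_ h1
  intro z hz
  rw [Set.mem_singleton_iff] at hz
  rw [hz]; exact h

theorem cycRing_mono {N M : ℕ} (h : N ∣ M) : cycRing N ≤ cycRing M := by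
  apply Algebra.adjoin_mono
  intro z (hz : z ^ N = 1)
  obtain ⟨k, rfl⟩ := h
  change z ^ (N * k) = 1
  rw [pow_mul, hz, one_pow]

theorem exists_prim {N : ℕ} (hN : 0 < N) : ∃ ξ : ℂ, IsPrimitiveRoot ξ N :=
  ⟨_, Complex.isPrimitiveRoot_exp N hN.ne'⟩

/-- vanishing at one primitive root implies vanishing at all -/
theorem aeval_eq_zero_of {N : ℕ} (hN : 0 < N) {ξ ξ' : ℂ} (h : IsPrimitiveRoot ξ N)
    (h' : IsPrimitiveRoot ξ' N) {f : ℤ[X]} (h0 : aeval ξ f = 0) : aeval ξ' f = 0 := by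
  have hd : cyclotomic N ℤ ∣ f := by
    rw [cyclotomic_eq_minpoly h hN]
    exact minpoly.isIntegrallyClosed_dvd (h.isIntegral hN) h0
  obtain ⟨g, rfl⟩ := hd
  rw [map_mul]
  have : aeval ξ' (cyclotomic N ℤ) = 0 := by
    rw [cyclotomic_eq_minpoly h' hN]
    exact minpoly.aeval ℤ ξ'
  rw [this, zero_mul]

theorem card_prim {N : ℕ} (hN : 0 < N) : (primitiveRoots N ℂ).card = Nat.totient N :=
  (Complex.isPrimitiveRoot_exp N hN.ne').card_primitiveRoots

theorem height_zero : casselsHeight 0 = 0 := by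
  have := height_aeval one_pos (IsPrimitiveRoot.one (M := ℂ)) (0 : ℤ[X])
  simpa using this

theorem height_nonneg_aux {N : ℕ} (hN : 0 < N) {β : ℂ} (hβ : β ∈ cycRing N) :
    0 ≤ casselsHeight β := by
  obtain ⟨ξ, hξ⟩ := exists_prim hN
  obtain ⟨f, rfl⟩ := exists_poly hN hξ hβ
  rw [height_aeval hN hξ]
  positivity

theorem one_le_prod_aux (L : Type) [Field L] [Algebra ℚ L] {N : ℕ} (hN : 0 < N)
    [NeZero N] [IsCyclotomicExtension {N} ℚ L] {ξ : ℂ} (h : IsPrimitiveRoot ξ N) {f : ℤ[X]}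
    (h0 : aeval ξ f ≠ 0) : 1 ≤ ∏ ξ ∈ primitiveRoots N ℂ, ‖aeval ξ f‖ := by
  obtain ⟨ζ, hζ⟩ : ∃ ζ : L, IsPrimitiveRoot ζ N :=
    ⟨_, IsCyclotomicExtension.zeta_spec N ℚ L⟩
  have : FiniteDimensional ℚ L := IsCyclotomicExtension.finiteDimensional {N} ℚ L
  have hirr : Irreducible (cyclotomic N ℚ) := cyclotomic.irreducible_rat hN
  have hprod : ∏ ξ ∈ primitiveRoots N ℂ, aeval ξ f =
      ∏ σ : L →ₐ[ℚ] ℂ, σ (aeval ζ f) := by
    rw [Fintype.prod_equiv (hζ.embeddingsEquivPrimitiveRoots ℂ hirr) _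
      (fun ξ : primitiveRoots N ℂ => aeval (ξ : ℂ) f)]
    · exact (Finset.prod_coe_sort (primitiveRoots N ℂ) (fun ξ => aeval ξ f)).symm
    · intro σ
      rw [IsPrimitiveRoot.embeddingsEquivPrimitiveRoots_apply_coe]
      rw [← AlgHom.restrictScalars_apply ℤ σ, ← Polynomial.aeval_algHom_apply]
      rfl
  have hnorm := Algebra.norm_eq_prod_embeddings ℚ ℂ (aeval ζ f : L)
  have hint : IsIntegral ℤ (Algebra.norm ℚ (aeval ζ f : L)) := by
    apply Algebra.isIntegral_norm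
    have h1 : IsIntegral ℤ ζ := hζ.isIntegral hN
    have h2 : (aeval ζ f : L) ∈ Algebra.adjoin ℤ {ζ} :=
      Polynomial.aeval_mem_adjoin_singleton ℤ ζ
    have h3 : Algebra.adjoin ℤ {ζ} ≤ integralClosure ℤ L := by
      apply Algebra.adjoin_le
      rw [Set.singleton_subset_iff]
      exact h1
    exact h3 h2
  obtain ⟨n, hn⟩ := IsIntegrallyClosed.isIntegral_iff.mp hint
  have hne : ∏ ξ ∈ primitiveRoots N ℂ, aeval ξ f ≠ 0 := by
    rw [Finset.prod_ne_zero_iff]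
    intro ξ' hξ' h0'
    exact h0 (aeval_eq_zero_of hN (isPrimitiveRoot_of_mem_primitiveRoots hξ') h h0')
  rw [← Complex.norm_prod, hprod, ← hnorm, ← hn]
  rw [hprod, ← hnorm, ← hn] at hne
  simp only [eq_intCast, map_intCast] at hne ⊢
  rw [Complex.norm_intCast]
  have : n ≠ 0 := by
    rintro rfl; simp at hne
  exact_mod_cast Int.one_le_abs this

/-- the product of the conjugates is at least one in absolute value -/
theorem one_le_prod {N : ℕ} (hN : 0 < N) {ξ : ℂ} (h : IsPrimitiveRoot ξ N) {f : ℤ[X]}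
    (h0 : aeval ξ f ≠ 0) : 1 ≤ ∏ ξ ∈ primitiveRoots N ℂ, ‖aeval ξ f‖ := by
  have : NeZero N := ⟨hN.ne'⟩
  exact @one_le_prod_aux (CyclotomicField N ℚ) _ (CyclotomicField.algebra N ℚ) N hN _
    (CyclotomicField.isCyclotomicExtension N ℚ) ξ h f h0

theorem one_le_height {N : ℕ} (hN : 0 < N) {β : ℂ} (hβ : β ∈ cycRing N) (h0 : β ≠ 0) :
    1 ≤ casselsHeight β := by
  obtain ⟨ξ, hξ⟩ := exists_prim hN
  obtain ⟨f, rfl⟩ := exists_poly hN hξ hβ
  rw [height_aeval hN hξ]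
  have hφ : (0 : ℝ) < Nat.totient N := by exact_mod_cast Nat.totient_pos.mpr hN
  rw [le_div_iff₀ hφ, one_mul]
  have h1 := one_le_prod hN hξ h0
  have hpos : ∀ ξ' ∈ primitiveRoots N ℂ, 0 < ‖aeval ξ' f‖ := by
    intro ξ' hξ'
    rw [norm_pos_iff]
    intro h0'
    exact h0 (aeval_eq_zero_of hN (isPrimitiveRoot_of_mem_primitiveRoots hξ') hξ h0')
  have h2 : 0 ≤ ∑ ξ' ∈ primitiveRoots N ℂ, (‖aeval ξ' f‖ ^ 2 - 1) := by
    calc (0 : ℝ) ≤ 2 * Real.log (∏ ξ ∈ primitiveRoots N ℂ, ‖aeval ξ f‖) := by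
          have := Real.log_nonneg h1; linarith
      _ = ∑ ξ' ∈ primitiveRoots N ℂ, 2 * Real.log ‖aeval ξ' f‖ := by
          rw [Real.log_prod (fun ξ' hξ' => (hpos ξ' hξ').ne'), Finset.mul_sum]
      _ ≤ ∑ ξ' ∈ primitiveRoots N ℂ, (‖aeval ξ' f‖ ^ 2 - 1) := by
          apply Finset.sum_le_sum
          intro ξ' hξ'
          have := Real.log_le_sub_one_of_pos (pow_pos (hpos ξ' hξ') 2)
          rw [Real.log_pow] at this
          simpa using this
  rw [Finset.sum_sub_distrib, Finset.sum_const, card_prim hN] at h2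
  simp only [nsmul_eq_mul, mul_one] at h2
  linarith

/-- multiplication by a root of unity does not change the height -/
theorem height_root_mul {N : ℕ} (hN : 0 < N) {β : ℂ} (hβ : β ∈ cycRing N) {ε : ℂ} {m : ℕ}
    (hm : 0 < m) (hε : ε ^ m = 1) : casselsHeight (ε * β) = casselsHeight β := by
  obtain ⟨ξ, hξ⟩ := exists_prim (Nat.mul_pos hN hm)
  have hNm := Nat.mul_pos hN hm
  have : NeZero (N * m) := ⟨hNm.ne'⟩
  obtain ⟨f, rfl⟩ := exists_poly hNm hξ (cycRing_mono (Dvd.intro _ rfl) hβ)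
  obtain ⟨k, _, rfl⟩ := hξ.eq_pow_of_pow_eq_one (ξ := ε)
    (by rw [mul_comm, pow_mul, hε, one_pow])
  have h1 : ξ ^ k * aeval ξ f = aeval ξ (X ^ k * f) := by simp
  rw [h1, height_aeval hNm hξ, height_aeval hNm hξ]
  congr 1
  apply Finset.sum_congr rfl
  intro ξ' hξ'
  have h2 := isPrimitiveRoot_of_mem_primitiveRoots hξ'
  have h3 : ‖ξ'‖ = 1 := h2.norm'_eq_one hNm.ne'
  simp [h3]

theorem height_neg {N : ℕ} (hN : 0 < N) {β : ℂ} (hβ : β ∈ cycRing N) :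
    casselsHeight (-β) = casselsHeight β := by
  have := height_root_mul hN hβ (ε := -1) two_pos (by norm_num)
  simpa using this

theorem height_one : casselsHeight 1 = 1 := by
  have := height_aeval one_pos (IsPrimitiveRoot.one (M := ℂ)) (1 : ℤ[X])
  simpa using this

theorem height_root {ε : ℂ} {m : ℕ} (hm : 0 < m) (hε : ε ^ m = 1) : casselsHeight ε = 1 := by
  have := height_root_mul one_pos (one_mem (cycRing 1)) hm hε
  rw [mul_one, height_one] at this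
  exact this

theorem norm_of_root {ε : ℂ} {m : ℕ} (hm : 0 < m) (hε : ε ^ m = 1) : ‖ε‖ = 1 :=
  Complex.norm_eq_one_of_pow_eq_one hε hm.ne'

/-- the difference of two roots of unity has height at most `4` -/
theorem height_sub_le {α β : ℂ} {m n : ℕ} (hm : 0 < m) (hn : 0 < n) (hα : α ^ m = 1)
    (hβ : β ^ n = 1) : casselsHeight (α - β) ≤ 4 := by
  have hmn := Nat.mul_pos hm hn
  obtain ⟨ξ, hξ⟩ := exists_prim hmn
  have : NeZero (m * n) := ⟨hmn.ne'⟩
  obtain ⟨k, _, rfl⟩ := hξ.eq_pow_of_pow_eq_one (ξ := α)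
    (by rw [pow_mul, hα, one_pow])
  obtain ⟨l, _, rfl⟩ := hξ.eq_pow_of_pow_eq_one (ξ := β)
    (by rw [mul_comm, pow_mul, hβ, one_pow])
  have h1 : ξ ^ k - ξ ^ l = aeval ξ (X ^ k - X ^ l : ℤ[X]) := by simp
  rw [h1, height_aeval hmn hξ]
  have hφ : (0 : ℝ) < Nat.totient (m * n) := by exact_mod_cast Nat.totient_pos.mpr hmn
  rw [div_le_iff₀ hφ]
  calc ∑ ξ' ∈ primitiveRoots (m * n) ℂ, ‖aeval ξ' (X ^ k - X ^ l : ℤ[X])‖ ^ 2
      ≤ ∑ ξ' ∈ primitiveRoots (m * n) ℂ, (4 : ℝ) := by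
        apply Finset.sum_le_sum
        intro ξ' hξ'
        have h2 := isPrimitiveRoot_of_mem_primitiveRoots hξ'
        have h3 : ‖ξ'‖ = 1 := h2.norm'_eq_one hmn.ne'
        have h4 : ‖aeval ξ' (X ^ k - X ^ l : ℤ[X])‖ ≤ 2 := by
          simp only [map_sub, map_pow, aeval_X]
          calc ‖ξ' ^ k - ξ' ^ l‖ ≤ ‖ξ' ^ k‖ + ‖ξ' ^ l‖ := norm_sub_le _ _
            _ = 2 := by simp [h3]; norm_num
        nlinarith [norm_nonneg (aeval ξ' (X ^ k - X ^ l : ℤ[X]))]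
    _ = 4 * (Nat.totient (m * n) : ℝ) := by
        rw [Finset.sum_const, card_prim hmn]; simp [mul_comm]

end

end Pool.Agent.MP_42a792_nt
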