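import Pool.Agent.MP_42a792_nt.Decomp

/-!
# Sums of two roots of unity, and Eisenstein integers
-/

open Polynomial IntermediateField

namespace Pool.Agent.MP_42a792_nt

noncomputable section

theorem sum_nthRoots {n : ℕ} (hn : 0 < n) :
    ∑ z ∈ nthRootsFinset n (1 : ℂ), z = if n = 1 then 1 else 0 := by
  split_ifs with h1
  · subst h1
    have : nthRootsFinset 1 (1 : ℂ) = {1} := by
      ext z; simp [mem_nthRootsFinset]
    rw [this, Finset.sum_singleton]
  · obtain ⟨ξ, hξ⟩ := exists_prim hn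
    have hξ0 : ξ ≠ 0 := hξ.ne_zero hn.ne'
    have hne : ξ ≠ 1 := hξ.ne_one (by omega)
    have h2 : ∑ z ∈ nthRootsFinset n (1 : ℂ), ξ * z = ∑ z ∈ nthRootsFinset n (1 : ℂ), z := by
      apply Finset.sum_nbij' (fun z => ξ * z) (fun z => ξ⁻¹ * z)
      · intro z hz
        rw [mem_nthRootsFinset hn] at hz ⊢
        rw [mul_pow, hz, hξ.pow_eq_one, one_mul]
      · intro z hz
        rw [mem_nthRootsFinset hn] at hz ⊢
        rw [mul_pow, hz, inv_pow, hξ.pow_eq_one, inv_one, one_mul]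
      · intro z _; field_simp
      · intro z _; field_simp
      · intro z _; rfl
    rw [← Finset.mul_sum] at h2
    have h3 : (ξ - 1) * ∑ z ∈ nthRootsFinset n (1 : ℂ), z = 0 := by rw [sub_mul, h2]; ring
    rcases mul_eq_zero.mp h3 with h4 | h4
    · exact absurd (sub_eq_zero.mp h4) hne
    · exact h4

theorem sum_primitiveRoots {n : ℕ} (hn : 0 < n) :
    ∑ ξ ∈ primitiveRoots n ℂ, ξ = (ArithmeticFunction.moebius n : ℂ) := by
  have h := (ArithmeticFunction.sum_eq_iff_sum_mul_moebius_eq (R := ℂ)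
    (f := fun n => ∑ ξ ∈ primitiveRoots n ℂ, ξ) (g := fun n => if n = 1 then 1 else 0)).mp ?_ n hn
  · rw [← h]
    rw [Nat.sum_divisorsAntidiagonal (f := fun a b => ((ArithmeticFunction.moebius a : ℤ) : ℂ) *
      (if b = 1 then 1 else 0))]
    rw [Finset.sum_eq_single n]
    · rw [Nat.div_self hn]; simp
    · intro d hd hdn
      have hd' := Nat.mem_divisors.mp hd
      have : n / d ≠ 1 := by
        intro h1
        apply hdn
        obtain ⟨k, hk⟩ := hd'.1
        have hd0 : 0 < d := Nat.pos_of_ne_zero (by rintro rfl; simp at hk; omega)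
        rw [hk, Nat.mul_div_cancel_left _ hd0] at h1
        rw [hk, h1, mul_one]
      simp [this]
    · intro h1
      exact absurd (Nat.mem_divisors_self n hn.ne') h1
  · intro m hm
    obtain ⟨ξ, hξ⟩ := exists_prim hm
    have : NeZero m := ⟨hm.ne'⟩
    rw [← sum_nthRoots hm, IsPrimitiveRoot.nthRoots_one_eq_biUnion_primitiveRoots,
      Finset.sum_biUnion]
    intro x _ y _ hxy
    exact IsPrimitiveRoot.disjoint hxy

theorem height_one_add {n : ℕ} (hn : 0 < n) {ζ : ℂ} (hζ : IsPrimitiveRoot ζ n) :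
    casselsHeight (1 + ζ) =
      2 + 2 * (ArithmeticFunction.moebius n : ℝ) / (Nat.totient n : ℝ) := by
  have h1 : (1 + ζ) = aeval ζ (1 + X : ℤ[X]) := by simp
  have hφ : (0 : ℝ) < Nat.totient n := by exact_mod_cast Nat.totient_pos.mpr hn
  rw [h1, height_aeval hn hζ]
  have h2 : ∀ ξ ∈ primitiveRoots n ℂ, ‖aeval ξ (1 + X : ℤ[X])‖ ^ 2 = 2 + 2 * ξ.re := by
    intro ξ hξ
    have h3 : ‖ξ‖ = 1 := (isPrimitiveRoot_of_mem_primitiveRoots hξ).norm'_eq_one hn.ne'
    have h4 : ξ.re * ξ.re + ξ.im * ξ.im = 1 := by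
      rw [← Complex.normSq_apply, Complex.normSq_eq_norm_sq, h3]; norm_num
    rw [← Complex.normSq_eq_norm_sq, Complex.normSq_apply]
    simp
    nlinarith
  rw [Finset.sum_congr rfl h2, Finset.sum_add_distrib, Finset.sum_const, card_prim hn,
    ← Finset.mul_sum, ← Complex.re_sum, sum_primitiveRoots hn]
  simp only [nsmul_eq_mul, Complex.intCast_re]
  field_simp

theorem exists_order {ζ : ℂ} {m : ℕ} (hm : 0 < m) (h : ζ ^ m = 1) :
    ∃ n, 0 < n ∧ IsPrimitiveRoot ζ n := by
  refine ⟨orderOf ζ, ?_, IsPrimitiveRoot.orderOf ζ⟩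
  exact orderOf_pos_iff.mpr (isOfFinOrder_iff_pow_eq_one.mpr ⟨m, hm, h⟩)

theorem height_one_add_ne {ζ : ℂ} {m : ℕ} (hm : 0 < m) (h : ζ ^ m = 1) :
    casselsHeight (1 + ζ) ≠ 7 / 2 := by
  obtain ⟨n, hn, hζ⟩ := exists_order hm h
  rw [height_one_add hn hζ]
  have hφ : (0 : ℝ) < Nat.totient n := by exact_mod_cast Nat.totient_pos.mpr hn
  intro h1
  have h2 : 4 * (ArithmeticFunction.moebius n : ℝ) = 3 * (Nat.totient n : ℝ) := by
    field_simp at h1
    linarith
  have h3 : 4 * (ArithmeticFunction.moebius n : ℤ) = 3 * (Nat.totient n : ℤ) := by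
    exact_mod_cast h2
  have h4 := (abs_le.mp (ArithmeticFunction.abs_moebius_le_one (n := n)))
  have h5 := Nat.totient_pos.mpr hn
  omega

theorem order_eq_five {n : ℕ} (hn : 0 < n)
    (h : 2 + 2 * (ArithmeticFunction.moebius n : ℝ) / (Nat.totient n : ℝ) = 3 / 2) : n = 5 := by
  have hφ : (0 : ℝ) < Nat.totient n := by exact_mod_cast Nat.totient_pos.mpr hn
  have h2 : 4 * (ArithmeticFunction.moebius n : ℝ) = - (Nat.totient n : ℝ) := by
    field_simp at h
    linarith
  have h3 : 4 * (ArithmeticFunction.moebius n : ℤ) = - (Nat.totient n : ℤ) := by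
    exact_mod_cast h2
  have h4 := (abs_le.mp (ArithmeticFunction.abs_moebius_le_one (n := n)))
  have h5 := Nat.totient_pos.mpr hn
  have h6 : ArithmeticFunction.moebius n = -1 := by omega
  have h7 : Nat.totient n = 4 := by omega
  have hsq : Squarefree n := by
    rw [← ArithmeticFunction.moebius_ne_zero_iff_squarefree, h6]; norm_num
  have hprimes : ∀ p, p.Prime → p ∣ n → p ∣ 30 := by
    intro p hp hpn
    have h8 : Nat.totient p ∣ 4 := by
      rw [← h7]; exact Nat.totient_dvd_of_dvd hpn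
    rw [Nat.totient_prime hp] at h8
    have h9 : p - 1 ≤ 4 := Nat.le_of_dvd (by norm_num) h8
    have h10 : p ≤ 5 := by omega
    interval_cases p <;> first | (exfalso; revert hp; norm_num; done) | norm_num
  have hdvd : n ∣ 30 := by
    rw [← Nat.prod_primeFactors_of_squarefree hsq]
    apply Finset.prod_primes_dvd
    · intro p hp
      exact (Nat.prime_of_mem_primeFactors hp).prime
    · intro p hp
      exact hprimes p (Nat.prime_of_mem_primeFactors hp) (Nat.dvd_of_mem_primeFactors hp)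
  have h11 : n ∈ Nat.divisors 30 := Nat.mem_divisors.mpr ⟨hdvd, by norm_num⟩
  have h12 : n ∈ ({1, 2, 3, 5, 6, 10, 15, 30} : Finset ℕ) := by
    have : Nat.divisors 30 = {1, 2, 3, 5, 6, 10, 15, 30} := by decide
    rwa [this] at h11
  have hmu10 : ArithmeticFunction.moebius 10 = 1 := by
    have := ArithmeticFunction.isMultiplicative_moebius.map_mul_of_coprime
      (m := 2) (n := 5) (by norm_num)
    rw [show (10 : ℕ) = 2 * 5 by norm_num, this,
      ArithmeticFunction.moebius_apply_prime Nat.prime_two,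
      ArithmeticFunction.moebius_apply_prime Nat.prime_five]
    norm_num
  have t1 : Nat.totient 1 = 1 := by decide
  have t2 : Nat.totient 2 = 1 := by decide
  have t3 : Nat.totient 3 = 2 := by decide
  have t6 : Nat.totient 6 = 2 := by decide
  have t15 : Nat.totient 15 = 8 := by decide
  have t30 : Nat.totient 30 = 8 := by decide
  simp only [Finset.mem_insert, Finset.mem_singleton] at h12
  rcases h12 with rfl | rfl | rfl | rfl | rfl | rfl | rfl | rfl
  · omega
  · omega
  · omega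
  · rfl
  · omega
  · omega
  · omega
  · omega

/-- if `1 + ζ` has height `3/2`, then `ζ` has order five -/
theorem prim_five {ζ : ℂ} {m : ℕ} (hm : 0 < m) (h : ζ ^ m = 1)
    (h' : casselsHeight (1 + ζ) = 3 / 2) : IsPrimitiveRoot ζ 5 := by
  obtain ⟨n, hn, hζ⟩ := exists_order hm h
  rw [height_one_add hn hζ] at h'
  rw [order_eq_five hn h'] at hζ
  exact hζ

/-! ### Eisenstein integers -/

theorem omega_sq {ω : ℂ} (hω : IsPrimitiveRoot ω 3) : ω ^ 2 = -1 - ω := by
  have h1 : ω ^ 3 = 1 := hω.pow_eq_one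
  have h2 : ω ≠ 1 := hω.ne_one (by norm_num)
  have h3 : (ω - 1) * (ω ^ 2 + ω + 1) = 0 := by linear_combination h1
  rcases mul_eq_zero.mp h3 with h4 | h4
  · exact absurd (sub_eq_zero.mp h4) h2
  · linear_combination h4

theorem eisenstein {N : ℕ} (hN : N ∣ 6) {ω : ℂ} (hω : IsPrimitiveRoot ω 3) {z : ℂ}
    (hz : z ∈ cycRing N) : ∃ a b : ℤ, z = a + b * ω := by
  have hz6 : z ∈ cycRing 6 := cycRing_mono hN hz
  have hsq := omega_sq hω
  clear hz
  unfold cycRing at hz6
  induction hz6 using Algebra.adjoin_induction with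
  | mem x hx =>
    have hx6 : x ^ 6 = 1 := hx
    have h1 : (x ^ 3 - 1) * (x ^ 3 + 1) = 0 := by linear_combination hx6
    rcases mul_eq_zero.mp h1 with h2 | h2
    · have : NeZero 3 := ⟨by norm_num⟩
      obtain ⟨i, hi, rfl⟩ := hω.eq_pow_of_pow_eq_one (ξ := x) (sub_eq_zero.mp h2)
      interval_cases i
      · exact ⟨1, 0, by simp⟩
      · exact ⟨0, 1, by simp⟩
      · exact ⟨-1, -1, by rw [hsq]; push_cast; ring⟩
    · have : NeZero 3 := ⟨by norm_num⟩
      obtain ⟨i, hi, hxi⟩ := hω.eq_pow_of_pow_eq_one (ξ := -x) (by linear_combination -h2)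
      have hx' : x = - ω ^ i := by rw [hxi]; ring
      rw [hx']
      interval_cases i
      · exact ⟨-1, 0, by simp⟩
      · exact ⟨0, -1, by simp⟩
      · exact ⟨1, 1, by rw [hsq]; push_cast; ring⟩
  | algebraMap r => exact ⟨r, 0, by simp⟩
  | add x y _ _ hx hy =>
    obtain ⟨a, b, rfl⟩ := hx 
    obtain ⟨c, d, rfl⟩ := hy 
    exact ⟨a + c, b + d, by push_cast; ring⟩
  | mul x y _ _ hx hy =>
    obtain ⟨a, b, rfl⟩ := hx 
    obtain ⟨c, d, rfl⟩ := hy 
    refine ⟨a * c - b * d, a * d + b * c - b * d, ?_⟩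
    push_cast
    linear_combination (b : ℂ) * d * hsq

/-- Eisenstein norm -/
theorem normSq_eisenstein {ω : ℂ} (hω : IsPrimitiveRoot ω 3) (a b : ℤ) :
    ‖(a : ℂ) + b * ω‖ ^ 2 = ((a ^ 2 - a * b + b ^ 2 : ℤ) : ℝ) := by
  have h3 : ‖ω‖ = 1 := hω.norm'_eq_one (by norm_num)
  have h4 : ω.re * ω.re + ω.im * ω.im = 1 := by
    rw [← Complex.normSq_apply, Complex.normSq_eq_norm_sq, h3]; norm_num
  have hsq := omega_sq hω
  have h5 : ω.re * ω.re - ω.im * ω.im = -1 - ω.re := by
    have := congrArg Complex.re hsq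
    simpa [pow_two] using this
  have h6 : ω.re = -1 / 2 := by
    have h7 : (2 * ω.re + 1) * ω.re = 0 := by nlinarith
    rcases mul_eq_zero.mp h7 with h8 | h8
    · linarith
    · exfalso
      have h9 : ω.re * ω.im + ω.im * ω.re = - ω.im := by
        have := congrArg Complex.im hsq
        simpa [pow_two] using this
      rw [h8] at h9 h4
      have : ω.im = 0 := by linarith
      rw [this] at h4
      norm_num at h4
  rw [← Complex.normSq_eq_norm_sq, Complex.normSq_apply]
  simp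
  rw [h6] at h4 ⊢
  have h7 : ω.im * ω.im = 3 / 4 := by linarith
  linear_combination (b : ℝ) ^ 2 * h7

theorem height_eisenstein {ω : ℂ} (hω : IsPrimitiveRoot ω 3) (a b : ℤ) :
    casselsHeight ((a : ℂ) + b * ω) = ((a ^ 2 - a * b + b ^ 2 : ℤ) : ℝ) := by
  have h1 : (a : ℂ) + b * ω = aeval ω (C a + C b * X : ℤ[X]) := by simp
  rw [h1, height_aeval (by norm_num) hω]
  have h2 : ∀ ξ ∈ primitiveRoots 3 ℂ, ‖aeval ξ (C a + C b * X : ℤ[X])‖ ^ 2 =
      ((a ^ 2 - a * b + b ^ 2 : ℤ) : ℝ) := by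
    intro ξ hξ
    rw [← normSq_eisenstein (isPrimitiveRoot_of_mem_primitiveRoots hξ)]
    simp
  rw [Finset.sum_congr rfl h2, Finset.sum_const, card_prim (by norm_num)]
  have : Nat.totient 3 = 2 := by decide
  rw [this]
  simp
  ring

end

end Pool.Agent.MP_42a792_nt
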