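import Pool.Agent.MP_42a792_nt.Small

/-!
# Normalised expansions of a cyclotomic integer along a prime divisor of the level
-/

open Polynomial IntermediateField

namespace Pool.Agent.MP_42a792_nt

noncomputable section

/-- being a root of unity -/
def IsRoot1 (z : ℂ) : Prop := ∃ m : ℕ, 0 < m ∧ z ^ m = 1

theorem IsRoot1.mul {x y : ℂ} (hx : IsRoot1 x) (hy : IsRoot1 y) : IsRoot1 (x * y) := by
  obtain ⟨m, hm, h1⟩ := hx
  obtain ⟨n, hn, h2⟩ := hy
  refine ⟨m * n, Nat.mul_pos hm hn, ?_⟩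
  rw [mul_pow, pow_mul, h1, mul_comm m n, pow_mul, h2]; simp

theorem IsRoot1.inv {x : ℂ} (hx : IsRoot1 x) : IsRoot1 x⁻¹ := by
  obtain ⟨m, hm, h1⟩ := hx
  exact ⟨m, hm, by rw [inv_pow, h1, inv_one]⟩

theorem IsRoot1.neg {x : ℂ} (hx : IsRoot1 x) : IsRoot1 (-x) := by
  have h : IsRoot1 (-1 : ℂ) := ⟨2, by norm_num, by norm_num⟩
  have := h.mul hx
  rwa [neg_one_mul] at this

theorem IsRoot1.pow {x : ℂ} (hx : IsRoot1 x) (k : ℕ) : IsRoot1 (x ^ k) := by
  obtain ⟨m, hm, h1⟩ := hx
  exact ⟨m, hm, by rw [← pow_mul, mul_comm, pow_mul, h1, one_pow]⟩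

theorem IsRoot1.ne_zero {x : ℂ} (hx : IsRoot1 x) : x ≠ 0 := by
  obtain ⟨m, hm, h1⟩ := hx
  rintro rfl
  rw [zero_pow hm.ne'] at h1
  exact zero_ne_one h1

theorem isRoot1_of_prim {x : ℂ} {n : ℕ} (hn : 0 < n) (hx : IsPrimitiveRoot x n) : IsRoot1 x :=
  ⟨n, hn, hx.pow_eq_one⟩

theorem IsRoot1.height {x : ℂ} (hx : IsRoot1 x) : casselsHeight x = 1 := by
  obtain ⟨m, hm, h1⟩ := hx
  exact height_root hm h1

theorem prim_quot {p : ℕ} (hp : p.Prime) {ω : ℂ} (hω : IsPrimitiveRoot ω p) {i j : ℕ}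
    (hi : i < p) (hj : j < p) (hij : i ≠ j) : IsPrimitiveRoot (ω ^ j * (ω ^ i)⁻¹) p := by
  have hω0 : ω ≠ 0 := hω.ne_zero hp.ne_zero
  have : Fact p.Prime := ⟨hp⟩
  have h1 : (ω ^ j * (ω ^ i)⁻¹) ^ p = 1 := by
    rw [mul_pow, inv_pow, ← pow_mul, ← pow_mul, mul_comm i, mul_comm j, pow_mul, pow_mul,
      hω.pow_eq_one]
    simp
  have h2 : ω ^ j * (ω ^ i)⁻¹ ≠ 1 := by
    intro h3
    rw [mul_inv_eq_one₀ (pow_ne_zero _ hω0)] at h3
    exact hij (hω.pow_inj hj hi h3).symm
  have h3 := orderOf_eq_prime h1 h2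
  have h4 := IsPrimitiveRoot.orderOf (ω ^ j * (ω ^ i)⁻¹)
  rwa [h3] at h4

theorem expansion_ramified {p M : ℕ} (hp : p.Prime) (hM : 0 < M) (hpM : p ∣ M) {β : ℂ}
    (hβ : β ∈ cycRing (p * M)) :
    ∃ (S : Finset ℕ) (γ : ℕ → ℂ) (ξ : ℂ), IsRoot1 ξ ∧ (∀ i, γ i ∈ cycRing M) ∧
      (∀ i ∈ S, γ i ≠ 0) ∧
      β = ∑ i ∈ S, ξ ^ i * γ i ∧
      casselsHeight β = ∑ i ∈ S, casselsHeight (γ i) := by
  have hN : 0 < p * M := Nat.mul_pos hp.pos hM
  obtain ⟨ξ, hξ⟩ := exists_prim hN
  obtain ⟨f, rfl⟩ := exists_poly hN hξ hβ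
  obtain ⟨α, hα, hf⟩ := exists_decomp (p := p) (x := ξ) (ξ := ξ) (cycRing M) (by
    intro k
    refine ⟨k % p, Nat.mod_lt _ hp.pos, (ξ ^ p) ^ (k / p), ?_, ?_⟩
    · exact pow_mem (root_mem (by rw [← pow_mul, hξ.pow_eq_one])) _
    · rw [← pow_mul, ← pow_add, Nat.mod_add_div]) f
  refine ⟨(Finset.range p).filter (fun i => α i ≠ 0), α, ξ, isRoot1_of_prim hN hξ, hα, ?_, ?_, ?_⟩
  · intro i hi
    exact (Finset.mem_filter.mp hi).2
  · rw [hf]
    symm
    apply Finset.sum_filter_of_ne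
    intro i _ h h0
    exact h (by rw [h0, mul_zero])
  · rw [hf, height_ramified hp hM hpM hξ hα]
    symm
    apply Finset.sum_filter_of_ne
    intro i _ h h0
    exact h (by rw [h0, height_zero])

theorem expansion_unramified {p M : ℕ} (hp : p.Prime) (hM : 0 < M) (hpM : Nat.Coprime p M) {ω : ℂ}
    (hω : IsPrimitiveRoot ω p) {β : ℂ} (hβ : β ∈ cycRing (p * M)) :
    ∃ (S : Finset ℕ) (γ : ℕ → ℂ), (∀ i, γ i ∈ cycRing M) ∧ (∀ i ∈ S, γ i ≠ 0) ∧
      (∀ i ∈ S, i < p) ∧ β = ∑ i ∈ S, ω ^ i * γ i ∧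
      2 * ((p : ℝ) - 1) * casselsHeight β =
        2 * ((p : ℝ) - S.card) * ∑ i ∈ S, casselsHeight (γ i) +
          ∑ i ∈ S, ∑ j ∈ S, casselsHeight (γ i - γ j) ∧
      (p : ℝ) * S.card ≤ 2 * ((p : ℝ) - 1) * casselsHeight β := by
  classical
  have hN : 0 < p * M := Nat.mul_pos hp.pos hM
  obtain ⟨η, hη⟩ := exists_prim hM
  have hξ : IsPrimitiveRoot (ω * η) (p * M) := mul_prim hω hη hpM
  obtain ⟨f, rfl⟩ := exists_poly hN hξ hβ
  obtain ⟨α, hα, hf⟩ := exists_decomp (p := p) (x := ω) (ξ := ω * η) (cycRing M) (by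
    intro k
    refine ⟨k % p, Nat.mod_lt _ hp.pos, η ^ k, ?_, ?_⟩
    · exact pow_mem (root_mem hη.pow_eq_one) _
    · rw [mul_pow]
      congr 1
      conv_lhs => rw [← Nat.mod_add_div k p, pow_add, pow_mul, hω.pow_eq_one, one_pow, mul_one]) f
  obtain ⟨i₀, hi₀, hmax⟩ := Finset.exists_max_image (Finset.range p)
    (fun i => ((Finset.range p).filter (fun j => α j = α i)).card)
    ⟨0, Finset.mem_range.mpr hp.pos⟩
  set γ : ℕ → ℂ := fun j => α j - α i₀ with hγ
  have hγM : ∀ i, γ i ∈ cycRing M := fun i => sub_mem (hα i) (hα i₀)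
  set S := (Finset.range p).filter (fun j => γ j ≠ 0) with hS
  set T := (Finset.range p).filter (fun j => ¬ (γ j ≠ 0)) with hT
  have hT0 : ∀ j ∈ T, γ j = 0 := fun j hj => by
    have := (Finset.mem_filter.mp hj).2
    exact not_not.mp this
  have hcard : S.card + T.card = p := by
    have := Finset.card_filter_add_card_filter_not (s := Finset.range p) (fun j => γ j ≠ 0)
    rwa [Finset.card_range] at this
  have hβ' : aeval (ω * η) f = ∑ i ∈ Finset.range p, ω ^ i * γ i := by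
    rw [hf, hγ]
    simp_rw [mul_sub, Finset.sum_sub_distrib, ← Finset.sum_mul]
    rw [hω.geom_sum_eq_zero hp.one_lt]; simp
  have hheight := height_unramified hp hM hpM hω hγM
  rw [← hβ'] at hheight
  refine ⟨S, γ, hγM, fun i hi => (Finset.mem_filter.mp hi).2,
    fun i hi => Finset.mem_range.mp (Finset.mem_filter.mp hi).1, ?_, ?_, ?_⟩
  · rw [hβ']
    symm
    apply Finset.sum_filter_of_ne
    intro i _ h h0
    exact h (by rw [h0, mul_zero])
  · rw [hheight]
    have hsplit : ∀ g : ℕ → ℝ, ∑ i ∈ Finset.range p, g i = ∑ i ∈ S, g i + ∑ i ∈ T, g i := by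
      intro g
      exact (Finset.sum_filter_add_sum_filter_not _ _ _).symm
    simp_rw [hsplit, Finset.sum_add_distrib]
    have e1 : ∑ i ∈ S, ∑ j ∈ T, casselsHeight (γ i - γ j) =
        T.card * ∑ i ∈ S, casselsHeight (γ i) := by
      rw [Finset.mul_sum]
      apply Finset.sum_congr rfl
      intro i _
      rw [Finset.sum_congr rfl (fun j hj => by rw [hT0 j hj, sub_zero] :
        ∀ j ∈ T, casselsHeight (γ i - γ j) = casselsHeight (γ i))]
      simp
    have e2 : ∑ i ∈ T, ∑ j ∈ S, casselsHeight (γ i - γ j) =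
        T.card * ∑ i ∈ S, casselsHeight (γ i) := by
      rw [Finset.sum_congr rfl (fun i hi => Finset.sum_congr rfl (fun j _ => by
        rw [hT0 i hi, zero_sub, height_neg hM (hγM j)]) :
        ∀ i ∈ T, ∑ j ∈ S, casselsHeight (γ i - γ j) = ∑ j ∈ S, casselsHeight (γ j))]
      simp
    have e3 : ∑ i ∈ T, ∑ j ∈ T, casselsHeight (γ i - γ j) = 0 := by
      apply Finset.sum_eq_zero
      intro i hi
      apply Finset.sum_eq_zero
      intro j hj
      rw [hT0 i hi, hT0 j hj, sub_zero, height_zero]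
    rw [e1, e2, e3]
    have : (T.card : ℝ) = (p : ℝ) - S.card := by
      rw [← hcard]; push_cast; ring
    rw [this]
    ring
  · rw [hheight]
    have hSle : ∀ i ∈ Finset.range p,
        (S.card : ℝ) ≤ ∑ j ∈ Finset.range p, casselsHeight (γ i - γ j) := by
      intro i hi
      have h1 := hmax i hi
      have h2 := Finset.card_filter_add_card_filter_not (s := Finset.range p)
        (fun j => α j = α i)
      rw [Finset.card_range] at h2
      have h3 : T = (Finset.range p).filter (fun j => α j = α i₀) := by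
        ext j
        simp [hT, hγ, sub_eq_zero]
      have h4 : S.card ≤ ((Finset.range p).filter (fun j => ¬ α j = α i)).card := by
        rw [← h3] at h1
        omega
      calc (S.card : ℝ) ≤ (((Finset.range p).filter (fun j => ¬ α j = α i)).card : ℝ) := by
            exact_mod_cast h4
        _ = ∑ j ∈ (Finset.range p).filter (fun j => ¬ α j = α i), (1 : ℝ) := by simp
        _ ≤ ∑ j ∈ (Finset.range p).filter (fun j => ¬ α j = α i), casselsHeight (γ i - γ j) := by
            apply Finset.sum_le_sum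
            intro j hj
            apply one_le_height hM (sub_mem (hγM i) (hγM j))
            have := (Finset.mem_filter.mp hj).2
            intro h0
            apply this
            rw [hγ] at h0
            simp only at h0
            linear_combination -h0
        _ ≤ ∑ j ∈ Finset.range p, casselsHeight (γ i - γ j) := by
            apply Finset.sum_le_sum_of_subset_of_nonneg (Finset.filter_subset _ _)
            intro j _ _
            exact height_nonneg_aux hM (sub_mem (hγM i) (hγM j))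
    calc (p : ℝ) * S.card = ∑ i ∈ Finset.range p, (S.card : ℝ) := by simp
      _ ≤ _ := Finset.sum_le_sum hSle

theorem level_cases {N : ℕ} (hN : 0 < N) :
    (∃ p M, p.Prime ∧ 0 < M ∧ N = p * M ∧ p ∣ M) ∨
    (∃ p M, p.Prime ∧ 7 ≤ p ∧ 0 < M ∧ N = p * M ∧ Nat.Coprime p M) ∨
    (∃ M, 0 < M ∧ N = 5 * M ∧ M ∣ 6 ∧ Nat.Coprime 5 M) ∨ N ∣ 6 := by
  by_cases hsq : Squarefree N
  · have hcop : ∀ p M, p.Prime → N = p * M → Nat.Coprime p M := by
      intro p M hp h
      rw [Nat.Prime.coprime_iff_not_dvd hp]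
      rintro ⟨q, rfl⟩
      have := hsq p ⟨q, by rw [h]; ring⟩
      exact hp.one_lt.ne' (Nat.isUnit_iff.mp this)
    right
    by_cases h7 : ∃ p, p.Prime ∧ 7 ≤ p ∧ p ∣ N
    · left
      obtain ⟨p, hp, hp7, M, hM⟩ := h7
      refine ⟨p, M, hp, hp7, ?_, hM, hcop p M hp hM⟩
      rcases Nat.eq_zero_or_pos M with h | h
      · rw [h, mul_zero] at hM; omega
      · exact h
    · right
      have h30 : N ∣ 30 := by
        rw [← Nat.prod_primeFactors_of_squarefree hsq]
        apply Finset.prod_primes_dvd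
        · intro p hp
          exact (Nat.prime_of_mem_primeFactors hp).prime
        · intro p hp
          have hp1 := Nat.prime_of_mem_primeFactors hp
          have hp2 := Nat.dvd_of_mem_primeFactors hp
          have hp3 : p < 7 := by
            by_contra h
            exact h7 ⟨p, hp1, by omega, hp2⟩
          interval_cases p <;> first | (exfalso; revert hp1; norm_num; done) | norm_num
      by_cases h5 : 5 ∣ N
      · left
        obtain ⟨M, hM⟩ := h5
        refine ⟨M, ?_, hM, ?_, hcop 5 M Nat.prime_five hM⟩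
        · rcases Nat.eq_zero_or_pos M with h | h
          · rw [h, mul_zero] at hM; omega
          · exact h
        · rw [hM, show (30 : ℕ) = 5 * 6 by norm_num] at h30
          exact Nat.dvd_of_mul_dvd_mul_left (by norm_num) h30
      · right
        have hc : Nat.Coprime N 5 := ((Nat.Prime.coprime_iff_not_dvd Nat.prime_five).mpr h5).symm
        rw [show (30 : ℕ) = 6 * 5 by norm_num] at h30
        exact hc.dvd_of_dvd_mul_right h30
  · left
    rw [Nat.squarefree_iff_prime_squarefree] at hsq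
    push Not at hsq
    obtain ⟨p, hp, k, hk⟩ := hsq
    refine ⟨p, p * k, hp, ?_, by rw [hk]; ring, Dvd.intro _ rfl⟩
    rcases Nat.eq_zero_or_pos k with h | h
    · rw [h, mul_zero] at hk; omega
    · exact Nat.mul_pos hp.pos h

end

end Pool.Agent.MP_42a792_nt
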